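import Pool.Agent.Y951.TR.Trans

/-!
# Consequences for infinitely many lengths, and binary digits (helper951)
-/

set_option autoImplicit false

namespace Pool.Agent.Y951.TR

open Finset Real
open Pool.Agent.Y933.KD

open Classical in
theorem levels_often {p : ℕ} {B : Finset ℕ} {ε : ℝ} {R : ℕ}
    (hR : ∀ (x : ℝ) (N K : ℕ), K * p ^ K ≤ N →
      ((Icc 1 K).filter (fun k => ¬ ∀ b ∈ B, ∀ t : ℤ, ¬ (p : ℤ) ∣ t →
        Disc b N (x + t / (p : ℝ) ^ k) ε)).card ≤ R) (x : ℝ) {ν : ℕ → ℕ}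
    (hν : Filter.Tendsto ν Filter.atTop Filter.atTop) {δ : ℝ} (hδ : 0 < δ) (F : Finset ℕ)
    (hF : ∀ k ∈ F, 1 ≤ k ∧ ¬ ∃ᶠ J : ℕ in Filter.atTop, (1 - δ) * J ≤
      (((range J).filter (fun j => ∀ b ∈ B, ∀ t : ℤ, ¬ (p : ℤ) ∣ t →
        Disc b (ν j) (x + t / (p : ℝ) ^ k) ε)).card : ℝ)) :
    (F.card : ℝ) ≤ R / δ := by
  obtain ⟨j₀, hj₀⟩ := Filter.eventually_atTop.1
    (hν.eventually (Filter.eventually_ge_atTop (F.sup id * p ^ (F.sup id))))
  refine often (bad := fun k j => ¬ ∀ b ∈ B, ∀ t : ℤ, ¬ (p : ℤ) ∣ t →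
    Disc b (ν j) (x + t / (p : ℝ) ^ k) ε) hδ (j₀ := j₀) (fun j hj => ?_) (fun k hk => ?_)
  · have h1 := hR x (ν j) (F.sup id) (hj₀ j hj)
    refine le_trans ?_ (Nat.cast_le.2 h1)
    refine Nat.cast_le.2 (card_le_card fun k hk => ?_)
    simp only [mem_filter, mem_Icc] at hk ⊢
    exact ⟨⟨(hF k hk.1).1, le_sup (f := id) hk.1⟩, hk.2⟩
  · have h1 := (hF k hk).2
    simp only [not_not]
    exact h1

open Classical in
theorem trans_often {B : Finset ℕ} {ε C : ℝ} (hC0 : 0 < C) {c : ℕ} (hc : 2 ≤ c)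
    {x : ℝ} (hC : ∀ N : ℕ, 1 ≤ N →
      (((range c).filter (fun a : ℕ => ¬ ∀ b ∈ B, Disc b N (x + (a : ℝ) / c) ε)).card : ℝ) ≤
        C * c * (1 / N + 1 / Real.log c)) {ν : ℕ → ℕ}
    (hν : Filter.Tendsto ν Filter.atTop Filter.atTop) {δ : ℝ} (hδ : 0 < δ) :
    (((range c).filter (fun a : ℕ => ¬ ∃ᶠ J : ℕ in Filter.atTop, (1 - δ) * J ≤
      (((range J).filter (fun j => ∀ b ∈ B, Disc b (ν j) (x + (a : ℝ) / c) ε)).card : ℝ))).card : ℝ)
      ≤ 2 * C * c / (δ * Real.log c) := by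
  have hlc : 0 < Real.log c := Real.log_pos (by exact_mod_cast (by omega : 1 < c))
  obtain ⟨N₀, hN₀⟩ := exists_nat_ge (Real.log c)
  obtain ⟨j₀, hj₀⟩ := Filter.eventually_atTop.1
    (hν.eventually (Filter.eventually_ge_atTop (max N₀ 1)))
  have key := often (F := (range c).filter (fun a : ℕ => ¬ ∃ᶠ J : ℕ in Filter.atTop, (1 - δ) * J ≤
      (((range J).filter (fun j => ∀ b ∈ B, Disc b (ν j) (x + (a : ℝ) / c) ε)).card : ℝ)))
    (bad := fun a j => ¬ ∀ b ∈ B, Disc b (ν j) (x + (a : ℝ) / c) ε)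
    (R := 2 * C * c / Real.log c) hδ (j₀ := j₀) (fun j hj => ?_) (fun a ha => ?_)
  · refine key.trans (le_of_eq ?_)
    rw [div_div, mul_comm δ]
  · have h1 := hj₀ j hj
    have h2 := hC (ν j) ((le_max_right _ _).trans h1)
    have h3 : (1 : ℝ) / (ν j : ℕ) ≤ 1 / Real.log c := by
      refine one_div_le_one_div_of_le hlc (hN₀.trans ?_)
      exact_mod_cast (le_max_left _ _).trans h1
    refine (Nat.cast_le.2 (card_le_card (t := (range c).filter
      (fun a : ℕ => ¬ ∀ b ∈ B, Disc b (ν j) (x + (a : ℝ) / c) ε)) (fun a ha => ?_))).trans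
        (h2.trans ?_)
    · simp only [mem_filter] at ha ⊢
      exact ⟨ha.1.1, ha.2⟩
    have h5 : C * c * (1 / (ν j : ℕ) + 1 / Real.log c) ≤ C * c * (1 / Real.log c + 1 / Real.log c) :=
      mul_le_mul_of_nonneg_left (by linarith) (by positivity)
    refine h5.trans (le_of_eq ?_)
    ring
  · have h1 := (mem_filter.1 ha).2
    simp only [not_not]
    exact h1

lemma finite_of_card_le {P : ℕ → Prop} {r : ℝ}
    (h : ∀ F : Finset ℕ, (∀ k ∈ F, P k) → (F.card : ℝ) ≤ r) : {k | P k}.Finite := by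
  by_contra hinf
  obtain ⟨n, hn⟩ := exists_nat_gt r
  obtain ⟨F, hF, hcard⟩ := Set.Infinite.exists_subset_card_eq hinf n
  have h1 := h F (fun k hk => hF hk)
  rw [hcard] at h1
  linarith

lemma floor_two (ξ : ℝ) (m : ℕ) :
    ⌊ξ * 2 ^ (m + 1)⌋ % 2 = 1 ↔ Int.fract ((2 : ℝ) ^ m * ξ) ∈ Set.Ico (1 / 2 : ℝ) 1 := by
  set z : ℝ := (2 : ℝ) ^ m * ξ with hz
  have h1 : ξ * 2 ^ (m + 1) = 2 * z := by rw [hz, pow_succ]; ring
  rw [h1, Set.mem_Ico]
  have h2 := Int.floor_add_fract z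
  have h3 := Int.fract_nonneg z
  have h4 := Int.fract_lt_one z
  constructor
  · intro h
    refine ⟨?_, h4⟩
    by_contra hcon
    push Not at hcon
    have h5 : ⌊2 * z⌋ = 2 * ⌊z⌋ := by
      rw [Int.floor_eq_iff]
      push_cast
      constructor <;> linarith
    rw [h5] at h
    omega
  · rintro ⟨h, _⟩
    have h5 : ⌊2 * z⌋ = 2 * ⌊z⌋ + 1 := by
      rw [Int.floor_eq_iff]
      push_cast
      constructor <;> linarith
    rw [h5]
    omega

open Classical in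
lemma ones_card (ξ : ℝ) (n : ℕ) :
    ((Icc 1 n).filter (fun k => ⌊ξ * 2 ^ k⌋ % 2 = 1)).card =
      ((range n).filter (fun m => Int.fract (((2 : ℕ) : ℝ) ^ m * ξ) ∈ Set.Ico (1 / 2 : ℝ) 1)).card := by
  symm
  refine card_bij (fun m _ => m + 1) ?_ ?_ ?_
  · intro m hm
    rw [mem_filter, mem_range] at hm
    rw [mem_filter, mem_Icc]
    refine ⟨by omega, (floor_two ξ m).2 ?_⟩
    have := hm.2
    rwa [Nat.cast_ofNat] at this
  · intro m _ m' _ h
    omega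
  · intro k hk
    rw [mem_filter, mem_Icc] at hk
    refine ⟨k - 1, ?_, by omega⟩
    rw [mem_filter, mem_range]
    refine ⟨by omega, ?_⟩
    have h1 := hk.2
    have h2 : k = (k - 1) + 1 := by omega
    rw [h2] at h1
    rw [Nat.cast_ofNat]
    exact (floor_two ξ (k - 1)).1 h1

lemma ones_of_disc {ξ ε : ℝ} {n : ℕ} (h : Disc 2 n ξ ε) :
    |(((Icc 1 n).filter (fun k => ⌊ξ * 2 ^ k⌋ % 2 = 1)).card : ℝ) - n / 2| ≤ ε * n := by
  have h1 := h (1 / 2) 1 (by norm_num) (by norm_num) le_rfl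
  rw [ones_card]
  have h2 : (1 - 1 / 2 : ℝ) * n = n / 2 := by ring
  rw [h2] at h1
  exact h1

end Pool.Agent.Y951.TR
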