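import Pool.Agent.Y951.TR.Trans

/-!
# Fractions whose denominators are powers of a fixed integer (helper951)
-/

set_option autoImplicit false

namespace Pool.Agent.Y951.TR

open Finset Real
open Pool.Agent.Y933.KD

lemma val_mono {p m n : ℕ} (hp : p.Prime) (hn : n ≠ 0) (h : m ∣ n) :
    padicValNat p m ≤ padicValNat p n := by
  haveI : Fact p.Prime := ⟨hp⟩
  exact (padicValNat_dvd_iff_le hn).1 (pow_padicValNat_dvd.trans h)

lemma lte_bound {p b : ℕ} (hp : p.Prime) (hb : 2 ≤ b) (hpb : ¬ p ∣ b) :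
    ∃ a : ℕ, ∀ j : ℕ, 1 ≤ j → padicValNat p (b ^ j - 1) ≤ a + padicValNat p j := by
  haveI : Fact p.Prime := ⟨hp⟩
  by_cases hp2 : p = 2
  · subst hp2
    refine ⟨padicValNat 2 (b + 1) + padicValNat 2 (b - 1), fun j hj => ?_⟩
    have h1 : b ^ j - 1 ∣ b ^ (2 * j) - 1 := by
      have := Nat.sub_dvd_pow_sub_pow (b ^ j) 1 2
      rwa [one_pow, ← pow_mul, mul_comm j 2] at this
    have hlt : 1 < b ^ (2 * j) := Nat.one_lt_pow (by omega) (by omega)
    have h2 := val_mono hp (by omega) h1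
    have h3 := padicValNat.pow_two_sub_pow (x := b) (y := 1) (by omega) (by omega) hpb
      (n := 2 * j) (by omega) (even_two_mul j)
    rw [one_pow, padicValNat.mul (by norm_num) (by omega), padicValNat.self (by norm_num)] at h3
    omega
  · have hodd : Odd p := hp.odd_of_ne_two hp2
    have hp1 : 1 ≤ p - 1 := by have := hp.two_le; omega
    have hx : 1 < b ^ (p - 1) := Nat.one_lt_pow (by omega) (by omega)
    have hcop : Nat.Coprime b p := (Nat.Prime.coprime_iff_not_dvd hp).2 hpb |>.symm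
    have hdvd : p ∣ b ^ (p - 1) - 1 := by
      have h1 := Nat.ModEq.pow_totient hcop
      rw [Nat.totient_prime hp] at h1
      exact (Nat.modEq_iff_dvd' hx.le).1 h1.symm
    have hnd : ¬ p ∣ b ^ (p - 1) := fun h => hpb (hp.dvd_of_dvd_pow h)
    refine ⟨padicValNat p (b ^ (p - 1) - 1), fun j hj => ?_⟩
    have h1 : b ^ j - 1 ∣ (b ^ (p - 1)) ^ j - 1 := by
      have := Nat.sub_dvd_pow_sub_pow (b ^ j) 1 (p - 1)
      rwa [one_pow, ← pow_mul, mul_comm j, pow_mul] at this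
    have hlt : 1 < (b ^ (p - 1)) ^ j := Nat.one_lt_pow (by omega) hx
    have h2 := val_mono hp (by omega) h1
    have h3 := padicValNat.pow_sub_pow (p := p) hodd hx hdvd hnd (n := j) (by omega)
    rw [one_pow] at h3
    omega

/-- orders modulo integers composed of the primes of `q` are large -/
lemma order_large {q b : ℕ} (hq : 1 ≤ q) (hb : 2 ≤ b) (hqb : q.Coprime b) :
    ∃ A : ℕ, 1 ≤ A ∧ ∀ c l j : ℕ, 1 ≤ l → 1 ≤ j → 1 ≤ c → (∀ p, p.Prime → p ∣ c → p ∣ q) →
      c ∣ l * (b ^ j - 1) → c ≤ l * A * j := by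
  have h0 : ∀ p : ℕ, ∃ a : ℕ, p ∈ q.primeFactors →
      ∀ j : ℕ, 1 ≤ j → padicValNat p (b ^ j - 1) ≤ a + padicValNat p j := by
    intro p
    by_cases hp : p ∈ q.primeFactors
    · have hpp := Nat.prime_of_mem_primeFactors hp
      obtain ⟨a, ha⟩ := lte_bound hpp hb (fun h => by
        have h1 := Nat.dvd_gcd (Nat.dvd_of_mem_primeFactors hp) h
        rw [hqb.gcd_eq_one] at h1
        exact hpp.one_lt.ne' (Nat.dvd_one.1 h1))
      exact ⟨a, fun _ => ha⟩
    · exact ⟨0, fun h => absurd h hp⟩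
  choose a ha using h0
  refine ⟨∏ p ∈ q.primeFactors, p ^ a p, ?_, ?_⟩
  · exact Nat.one_le_iff_ne_zero.2 (prod_ne_zero_iff.2 fun p hp =>
      pow_ne_zero _ (Nat.prime_of_mem_primeFactors hp).ne_zero)
  · intro c l j hl hj hc hcq hdvd
    set A := ∏ p ∈ q.primeFactors, p ^ a p with hA
    have hA0 : A ≠ 0 := prod_ne_zero_iff.2 fun p hp =>
      pow_ne_zero _ (Nat.prime_of_mem_primeFactors hp).ne_zero
    have hlt : 1 < b ^ j := Nat.one_lt_pow (by omega) (by omega)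
    have hne : l * (b ^ j - 1) ≠ 0 := Nat.mul_ne_zero (by omega) (by omega)
    have hne2 : l * A * j ≠ 0 := Nat.mul_ne_zero (Nat.mul_ne_zero (by omega) hA0) (by omega)
    refine Nat.le_of_dvd (Nat.pos_of_ne_zero hne2) ?_
    rw [← Nat.factorization_prime_le_iff_dvd (by omega) hne2]
    intro p hp
    haveI : Fact p.Prime := ⟨hp⟩
    rw [Nat.factorization_def _ hp, Nat.factorization_def _ hp]
    by_cases hpc : p ∣ c
    · have hpq : p ∈ q.primeFactors := by
        rw [Nat.mem_primeFactors]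
        exact ⟨hp, hcq p hp hpc, by omega⟩
      have h1 := val_mono hp hne hdvd
      rw [padicValNat.mul (by omega) (by omega)] at h1
      have h2 := ha p hpq j hj
      have h3 : a p ≤ padicValNat p A := by
        refine (padicValNat_dvd_iff_le hA0).1 ?_
        rw [hA]
        exact dvd_prod_of_mem _ hpq
      rw [padicValNat.mul (Nat.mul_ne_zero (by omega) hA0) (by omega),
        padicValNat.mul (by omega) hA0]
      omega
    · rw [padicValNat.eq_zero_of_not_dvd hpc]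
      exact Nat.zero_le _

/-- the second moment over the translates, with a separation -/
lemma moment_sep {b c l : ℕ} (hc : 1 ≤ c) (x : ℝ) (N : ℕ) {ρ : ℝ} (hρ : 0 < ρ)
    (hsep : ∀ n1 n2 n' : ℕ, n1 < n2 → (c : ℤ) ∣ l * ((b : ℤ) ^ n1 - (b : ℤ) ^ n') →
      (c : ℤ) ∣ l * ((b : ℤ) ^ n2 - (b : ℤ) ^ n') → ρ ≤ (n2 : ℝ) - n1) :
    ∑ a ∈ range c, ‖∑ n ∈ range N, e (l * ((b : ℝ) ^ n * (x + a / c)))‖ ^ 2 ≤
      c * (N * (N / ρ + 1)) := by
  classical
  have hcR : (0 : ℝ) < c := by exact_mod_cast (by omega : 0 < c)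
  have h1 : ((∑ a ∈ range c, ‖∑ n ∈ range N, e (l * ((b : ℝ) ^ n * (x + a / c)))‖ ^ 2 : ℝ) : ℂ) =
      ∑ n' ∈ range N, ∑ n ∈ range N, e (l * ((b : ℝ) ^ n - (b : ℝ) ^ n') * x) *
        ∑ a ∈ range c, e (a * (((l * ((b : ℤ) ^ n - (b : ℤ) ^ n') : ℤ) : ℝ) / c)) := by
    push_cast
    have h2 : ∀ a ∈ range c, ((‖∑ n ∈ range N, e (l * ((b : ℝ) ^ n * (x + a / c)))‖ : ℂ)) ^ 2 =
        ∑ n' ∈ range N, ∑ n ∈ range N, e (l * ((b : ℝ) ^ n - (b : ℝ) ^ n') * x) *
          e (a * (l * ((b : ℝ) ^ n - (b : ℝ) ^ n') / c)) := by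
      intro a _
      set W := ∑ n ∈ range N, e (l * ((b : ℝ) ^ n * (x + a / c))) with hW
      have h3 : ((‖W‖ : ℂ)) ^ 2 = (starRingEnd ℂ) W * W := by
        rw [mul_comm, Complex.mul_conj, Complex.normSq_eq_norm_sq]; push_cast; rfl
      rw [h3, hW, map_sum, sum_mul_sum]
      refine sum_congr rfl fun n' _ => sum_congr rfl fun n _ => ?_
      rw [← e_neg, ← e_add, ← e_add]
      congr 1
      ring
    rw [sum_congr rfl h2, sum_comm]
    refine sum_congr rfl fun n' _ => ?_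
    rw [sum_comm]
    refine sum_congr rfl fun n _ => ?_
    rw [mul_sum]
  have h2 : ∑ a ∈ range c, ‖∑ n ∈ range N, e (l * ((b : ℝ) ^ n * (x + a / c)))‖ ^ 2 ≤
      ∑ n' ∈ range N, ∑ n ∈ range N,
        (if (c : ℤ) ∣ l * ((b : ℤ) ^ n - (b : ℤ) ^ n') then (c : ℝ) else 0) := by
    have h3 : ∑ a ∈ range c, ‖∑ n ∈ range N, e (l * ((b : ℝ) ^ n * (x + a / c)))‖ ^ 2 =
        ‖((∑ a ∈ range c, ‖∑ n ∈ range N, e (l * ((b : ℝ) ^ n * (x + a / c)))‖ ^ 2 : ℝ) : ℂ)‖ := by
      rw [Complex.norm_real, Real.norm_of_nonneg (sum_nonneg fun a _ => by positivity)]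
    rw [h3, h1]
    refine (norm_sum_le _ _).trans (sum_le_sum fun n' _ => ?_)
    refine (norm_sum_le _ _).trans (sum_le_sum fun n _ => ?_)
    rw [norm_mul, norm_e, one_mul]
    exact sum_res (by omega) _
  refine h2.trans ?_
  have h3 : ∀ n' ∈ range N, ∑ n ∈ range N,
      (if (c : ℤ) ∣ l * ((b : ℤ) ^ n - (b : ℤ) ^ n') then (c : ℝ) else 0) ≤ c * (N / ρ + 1) := by
    intro n' _
    rw [← sum_filter, sum_const, nsmul_eq_mul, mul_comm]
    refine mul_le_mul_of_nonneg_left ?_ hcR.le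
    exact separated (S := (range N).filter
      (fun n => (c : ℤ) ∣ l * ((b : ℤ) ^ n - (b : ℤ) ^ n'))) (N := N) (filter_subset _ _)
      hρ (by
        intro s hs t ht hst
        rw [mem_filter] at hs ht
        exact hsep s t n' hst hs.2 ht.2)
  refine (sum_le_sum h3).trans (le_of_eq ?_)
  rw [sum_const, card_range, nsmul_eq_mul]
  ring

lemma dvd_sub_pow {b c l n1 n2 n' : ℕ} (hb : 1 ≤ b) (hcb : c.Coprime b)
    (h1 : (c : ℤ) ∣ l * ((b : ℤ) ^ n1 - (b : ℤ) ^ n')) (h2 : (c : ℤ) ∣ l * ((b : ℤ) ^ n2 - (b : ℤ) ^ n'))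
    (h : n1 < n2) : c ∣ l * (b ^ (n2 - n1) - 1) := by
  have h3 : (c : ℤ) ∣ (b : ℤ) ^ n1 * (l * ((b : ℤ) ^ (n2 - n1) - 1)) := by
    have h4 := dvd_sub h2 h1
    have h5 : (l : ℤ) * ((b : ℤ) ^ n2 - (b : ℤ) ^ n') - l * ((b : ℤ) ^ n1 - (b : ℤ) ^ n') =
        (b : ℤ) ^ n1 * (l * ((b : ℤ) ^ (n2 - n1) - 1)) := by
      have h6 : (b : ℤ) ^ n2 = (b : ℤ) ^ n1 * (b : ℤ) ^ (n2 - n1) := by
        rw [← pow_add]; congr 1; omega
      rw [h6]; ring
    rwa [h5] at h4
  have h4 : IsCoprime (c : ℤ) ((b : ℤ) ^ n1) := (Nat.isCoprime_iff_coprime.2 hcb).pow_right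
  have h5 := h4.dvd_of_dvd_mul_left h3
  have h6 : 1 ≤ b ^ (n2 - n1) := Nat.one_le_pow _ _ hb
  have h7 : (l : ℤ) * ((b : ℤ) ^ (n2 - n1) - 1) = ((l * (b ^ (n2 - n1) - 1) : ℕ) : ℤ) := by
    push_cast [Nat.cast_sub h6]
    ring
  rw [h7] at h5
  exact_mod_cast h5

open Classical in
/-- one base -/
theorem smooth_one {q b : ℕ} (hq : 1 ≤ q) (hb : 2 ≤ b) (hqb : q.Coprime b) {ε : ℝ} (hε : 0 < ε) :
    ∃ C : ℝ, 0 < C ∧ ∀ c : ℕ, 1 ≤ c → (∀ p, p.Prime → p ∣ c → p ∣ q) → ∀ (x : ℝ) (N : ℕ), 1 ≤ N →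
      (((range c).filter (fun a : ℕ => ¬ Disc b N (x + (a : ℝ) / c) ε)).card : ℝ) ≤
        C * (1 + c / N) := by
  obtain ⟨H, hH, η, hη, hW⟩ := weyl_disc hε
  obtain ⟨A, hA, hord⟩ := order_large hq hb hqb
  have hHR : (1 : ℝ) ≤ H := by exact_mod_cast hH
  have hAR : (1 : ℝ) ≤ A := by exact_mod_cast hA
  refine ⟨H * (H * A / η ^ 2), by positivity, fun c hc hcq x N hN => ?_⟩
  have hNR : (0 : ℝ) < N := by exact_mod_cast hN
  have hcR : (0 : ℝ) < c := by exact_mod_cast hc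
  have hcb : c.Coprime b := by
    refine Nat.coprime_of_dvd fun p hp hpc hpb => ?_
    have h1 := Nat.dvd_gcd (hcq p hp hpc) hpb
    rw [hqb.gcd_eq_one] at h1
    exact hp.one_lt.ne' (Nat.dvd_one.1 h1)
  set S : ℕ → Finset ℕ := fun l => (range c).filter
    (fun a => η * N ≤ ‖∑ n ∈ range N, e (l * ((b : ℝ) ^ n * (x + (a : ℝ) / c)))‖) with hS
  have h1 : (range c).filter (fun a : ℕ => ¬ Disc b N (x + (a : ℝ) / c) ε) ⊆
      (Icc 1 H).biUnion S := by
    intro a hk
    rw [mem_filter] at hk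
    by_contra hcon
    apply hk.2
    refine hW N (fun n => (b : ℝ) ^ n * (x + (a : ℝ) / c)) hN fun l hl1 hlH => ?_
    by_contra hbig
    apply hcon
    rw [mem_biUnion]
    refine ⟨l, mem_Icc.2 ⟨hl1, hlH⟩, ?_⟩
    rw [hS]
    simp only [mem_filter]
    exact ⟨hk.1, (not_le.1 hbig).le⟩
  have h2 : ∀ l ∈ Icc 1 H, ((S l).card : ℝ) ≤ (H * A / η ^ 2) * (1 + c / N) := by
    intro l hl
    rw [mem_Icc] at hl
    have hlR : (1 : ℝ) ≤ l := by exact_mod_cast hl.1
    have hm := moment_sep (b := b) (l := l) hc x N (ρ := c / (l * A)) (by positivity) (by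
      intro n1 n2 n' h12 h3 h4
      have h5 := dvd_sub_pow (by omega) hcb h3 h4 h12
      have h6 := hord c l (n2 - n1) hl.1 (by omega) hc hcq h5
      rw [div_le_iff₀ (by positivity)]
      have h7 : (c : ℝ) ≤ l * A * ((n2 - n1 : ℕ) : ℝ) := by exact_mod_cast h6
      rw [Nat.cast_sub h12.le] at h7
      linarith)
    have h3 : ((S l).card : ℝ) * (η * N) ^ 2 ≤
        ∑ a ∈ range c, ‖∑ n ∈ range N, e (l * ((b : ℝ) ^ n * (x + (a : ℝ) / c)))‖ ^ 2 := by
      calc ((S l).card : ℝ) * (η * N) ^ 2 = ∑ a ∈ S l, (η * N) ^ 2 := by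
            rw [sum_const, nsmul_eq_mul]
        _ ≤ ∑ a ∈ S l, ‖∑ n ∈ range N, e (l * ((b : ℝ) ^ n * (x + (a : ℝ) / c)))‖ ^ 2 := by
            refine sum_le_sum fun a ha => ?_
            rw [hS] at ha
            simp only [mem_filter] at ha
            exact pow_le_pow_left₀ (by positivity) ha.2 2
        _ ≤ _ := sum_le_sum_of_subset_of_nonneg (filter_subset _ _) fun _ _ _ => by positivity
    have h5 : ((S l).card : ℝ) * (η * N) ^ 2 ≤ (H * A) * N ^ 2 * (1 + c / N) := by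
      refine (h3.trans hm).trans ?_
      have e1 : (c : ℝ) * (N * (N / (c / (l * A)) + 1)) = (l * A) * N ^ 2 + c * N := by
        field_simp
      have e2 : ((H : ℝ) * A) * N ^ 2 * (1 + c / N) = (H * A) * N ^ 2 + (H * A) * (c * N) := by
        field_simp
      rw [e1, e2]
      have e3 : (l : ℝ) ≤ H := by exact_mod_cast hl.2
      have e4 : (1 : ℝ) ≤ H * A := by nlinarith
      have e5 : (c : ℝ) * N ≤ (H * A) * (c * N) := le_mul_of_one_le_left (by positivity) e4
      have e6 : (l * A : ℝ) * N ^ 2 ≤ (H * A) * N ^ 2 := by gcongr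
      linarith
    rw [← mul_le_mul_iff_left₀ (show (0 : ℝ) < (η * N) ^ 2 by positivity)]
    refine h5.trans (le_of_eq ?_)
    field_simp
  have h3 : ((((range c).filter (fun a : ℕ => ¬ Disc b N (x + (a : ℝ) / c) ε)).card : ℕ) : ℝ) ≤
      ∑ l ∈ Icc 1 H, ((S l).card : ℝ) := by
    exact_mod_cast (card_le_card h1).trans card_biUnion_le
  refine h3.trans ((sum_le_sum h2).trans (le_of_eq ?_))
  rw [sum_const, Nat.card_Icc, nsmul_eq_mul]
  simp
  ring

open Classical in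
/-- several bases, all powers of `q` -/
theorem smooth_all {q : ℕ} (hq : 1 ≤ q) (B : Finset ℕ) (hB : ∀ b ∈ B, 2 ≤ b ∧ q.Coprime b) {ε : ℝ}
    (hε : 0 < ε) : ∃ C : ℕ, ∀ (x : ℝ) (c N : ℕ), 1 ≤ c → (∀ p, p.Prime → p ∣ c → p ∣ q) → c ≤ N →
      ((range c).filter (fun a : ℕ => ¬ ∀ b ∈ B, Disc b N (x + (a : ℝ) / c) ε)).card ≤ C := by
  choose! C hC0 hC using fun (b : ℕ) (hb : b ∈ B) => smooth_one hq (hB b hb).1 (hB b hb).2 hε
  refine ⟨∑ b ∈ B, ⌊2 * C b⌋₊, fun x c N hc hcq hcN => ?_⟩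
  have hcR : (0 : ℝ) < c := by exact_mod_cast hc
  have hNR : (0 : ℝ) < N := by exact_mod_cast (by omega : 0 < N)
  have h2 : (range c).filter (fun a : ℕ => ¬ ∀ b ∈ B, Disc b N (x + (a : ℝ) / c) ε) ⊆
      B.biUnion fun b => (range c).filter (fun a : ℕ => ¬ Disc b N (x + (a : ℝ) / c) ε) := by
    intro a ha
    rw [mem_filter] at ha
    obtain ⟨ha1, ha2⟩ := ha
    push Not at ha2
    obtain ⟨b, hb, hb2⟩ := ha2
    exact mem_biUnion.2 ⟨b, hb, mem_filter.2 ⟨ha1, hb2⟩⟩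
  refine ((card_le_card h2).trans card_biUnion_le).trans (sum_le_sum fun b hb => Nat.le_floor ?_)
  refine (hC b hb c hc hcq x N (by omega)).trans ?_
  have h3 : (c : ℝ) / N ≤ 1 := by
    rw [div_le_one hNR]
    exact_mod_cast hcN
  have := hC0 b hb
  nlinarith

open Classical in
/-- a finite family with few bad members at every stage: most members are good at most stages of
infinitely many initial segments -/
theorem often' {ι : Type*} {F : Finset ι} {bad : ι → ℕ → Prop} {R : ℝ} {δ : ℝ} (hδ : 0 < δ) {j₀ : ℕ}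
    (hbad : ∀ j, j₀ ≤ j → ((F.filter (fun k => bad k j)).card : ℝ) ≤ R)
    (hF : ∀ k ∈ F, ¬ ∃ᶠ J : ℕ in Filter.atTop,
      (1 - δ) * J ≤ (((range J).filter (fun j => ¬ bad k j)).card : ℝ)) :
    (F.card : ℝ) ≤ R / δ := by
  have h1 : ∀ᶠ J : ℕ in Filter.atTop, ∀ k ∈ F,
      (((range J).filter (fun j => ¬ bad k j)).card : ℝ) < (1 - δ) * J := by
    rw [Filter.eventually_all_finset]
    intro k hk
    have h2 := Filter.not_frequently.1 (hF k hk)
    filter_upwards [h2] with J hJ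
    exact not_le.1 hJ
  obtain ⟨J₁, hJ₁⟩ := Filter.eventually_atTop.1 h1
  have h2 : ∀ J : ℕ, J₁ ≤ J → F.card * (δ * J) ≤ R * J + F.card * j₀ := by
    intro J hJ
    have hR0 : 0 ≤ R := (Nat.cast_nonneg _).trans (hbad j₀ le_rfl)
    have h3 : ∀ k ∈ F, δ * J ≤ (((range J).filter (fun j => bad k j)).card : ℝ) := by
      intro k hk
      have h4 := hJ₁ J hJ k hk
      have h5 : ((range J).filter (fun j => bad k j)).card +
          ((range J).filter (fun j => ¬ bad k j)).card = J := by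
        rw [card_filter_add_card_filter_not, card_range]
      have h6 : (((range J).filter (fun j => bad k j)).card : ℝ) +
          (((range J).filter (fun j => ¬ bad k j)).card : ℝ) = J := by exact_mod_cast h5
      linarith
    have h4 : ∑ k ∈ F, (((range J).filter (fun j => bad k j)).card : ℝ) =
        ∑ j ∈ range J, ((F.filter (fun k => bad k j)).card : ℝ) := by
      simp only [card_filter]
      push_cast
      exact sum_comm
    have h5 : ∑ j ∈ range J, ((F.filter (fun k => bad k j)).card : ℝ) ≤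
        ∑ j ∈ range J, (R + if j < j₀ then (F.card : ℝ) else 0) := by
      refine sum_le_sum fun j _ => ?_
      by_cases hj : j < j₀
      · rw [if_pos hj]
        have : ((F.filter (fun k => bad k j)).card : ℝ) ≤ F.card := by
          exact_mod_cast card_filter_le _ _
        linarith
      · rw [if_neg hj, add_zero]
        exact hbad j (not_lt.1 hj)
    have h6 : ∑ j ∈ range J, (if j < j₀ then (F.card : ℝ) else 0) ≤ F.card * j₀ := by
      rw [← sum_filter, sum_const, nsmul_eq_mul, mul_comm]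
      refine mul_le_mul_of_nonneg_left ?_ (Nat.cast_nonneg _)
      have : ((range J).filter (fun j => j < j₀)).card ≤ (range j₀).card :=
        card_le_card fun j hj => by
          rw [mem_filter] at hj
          exact mem_range.2 hj.2
      rw [card_range] at this
      exact_mod_cast this
    calc F.card * (δ * J) = ∑ k ∈ F, δ * J := by rw [sum_const, nsmul_eq_mul]
      _ ≤ ∑ k ∈ F, (((range J).filter (fun j => bad k j)).card : ℝ) := sum_le_sum h3
      _ = _ := h4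
      _ ≤ _ := h5
      _ = R * J + ∑ j ∈ range J, (if j < j₀ then (F.card : ℝ) else 0) := by
          rw [sum_add_distrib, sum_const, card_range, nsmul_eq_mul]; ring
      _ ≤ _ := by linarith
  rw [le_div_iff₀ hδ]
  by_contra hcon
  push Not at hcon
  obtain ⟨J, hJ⟩ := exists_nat_gt (F.card * j₀ / (F.card * δ - R))
  have h3 : 0 < F.card * δ - R := by linarith
  rw [div_lt_iff₀ h3] at hJ
  have h4 := h2 (max J J₁) (le_max_right _ _)
  have h5 : (J : ℝ) ≤ (max J J₁ : ℕ) := by exact_mod_cast le_max_left _ _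
  nlinarith

open Classical in
/-- the translates by `ℤ[1/q] ∩ [0, 1)` -/
theorem group_often {q : ℕ} (hq : 2 ≤ q) {B : Finset ℕ} {ε : ℝ} {C : ℕ}
    (hC : ∀ (x : ℝ) (c N : ℕ), 1 ≤ c → (∀ p, p.Prime → p ∣ c → p ∣ q) → c ≤ N →
      ((range c).filter (fun a : ℕ => ¬ ∀ b ∈ B, Disc b N (x + (a : ℝ) / c) ε)).card ≤ C)
    (x : ℝ) {ν : ℕ → ℕ} (hν : Filter.Tendsto ν Filter.atTop Filter.atTop) {δ : ℝ} (hδ : 0 < δ)
    (F : Finset ℝ) (hF : ∀ r ∈ F, (∃ k t : ℕ, t < q ^ k ∧ r = t / (q : ℝ) ^ k) ∧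
      ¬ ∃ᶠ J : ℕ in Filter.atTop, (1 - δ) * J ≤
        (((range J).filter (fun j => ∀ b ∈ B, Disc b (ν j) (x + r) ε)).card : ℝ)) :
    (F.card : ℝ) ≤ C / δ := by
  have hqR : (0 : ℝ) < q := by exact_mod_cast (by omega : 0 < q)
  have hch : ∀ r : ℝ, ∃ k t : ℕ, r ∈ F → (t < q ^ k ∧ r = t / (q : ℝ) ^ k) := by
    intro r
    by_cases hr : r ∈ F
    · obtain ⟨k, t, h⟩ := (hF r hr).1
      exact ⟨k, t, fun _ => h⟩
    · exact ⟨0, 0, fun h => absurd h hr⟩
  choose k t hkt using hch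
  set K := F.sup k with hK
  obtain ⟨j₀, hj₀⟩ := Filter.eventually_atTop.1 (hν.eventually (Filter.eventually_ge_atTop (q ^ K)))
  refine often' (bad := fun r j => ¬ ∀ b ∈ B, Disc b (ν j) (x + r) ε) hδ (j₀ := j₀)
    (fun j hj => ?_) (fun r hr => ?_)
  · have h1 := hC x (q ^ K) (ν j) (Nat.one_le_pow _ _ (by omega))
      (fun p hp hpc => hp.dvd_of_dvd_pow hpc) (hj₀ j hj)
    refine le_trans ?_ (Nat.cast_le.2 h1)
    refine Nat.cast_le.2 (card_le_card_of_injOn (fun r => t r * q ^ (K - k r)) ?_ ?_)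
    · intro r hr
      simp only [Finset.coe_filter, Set.mem_ofPred_eq, mem_range] at hr ⊢
      obtain ⟨h2, h3⟩ := hkt r hr.1
      have hkK : k r ≤ K := le_sup hr.1
      have e1 : q ^ K = q ^ k r * q ^ (K - k r) := by rw [← pow_add]; congr 1; omega
      refine ⟨?_, ?_⟩
      · rw [e1]
        exact Nat.mul_lt_mul_of_pos_right h2 (by positivity)
      · have e2 : (((t r * q ^ (K - k r) : ℕ) : ℝ)) / ((q ^ K : ℕ) : ℝ) = r := by
          rw [e1]
          push_cast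
          rw [mul_div_mul_right _ _ (by positivity)]
          exact h3.symm
        rw [e2]
        exact hr.2
    · intro r hr r' hr' h
      simp only [Finset.coe_filter, Set.mem_ofPred_eq] at hr hr'
      have key : ∀ s, s ∈ F → (((t s * q ^ (K - k s) : ℕ) : ℝ)) = s * (q : ℝ) ^ K := by
        intro s hs
        obtain ⟨h2, h3⟩ := hkt s hs
        have hkK : k s ≤ K := le_sup hs
        have e1 : (q : ℝ) ^ K = (q : ℝ) ^ k s * (q : ℝ) ^ (K - k s) := by
          rw [← pow_add]; congr 1; omega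
        have h4 : s * (q : ℝ) ^ k s = t s := by
          have h5 : (q : ℝ) ^ k s ≠ 0 := by positivity
          exact (eq_div_iff h5).1 h3
        rw [e1, ← mul_assoc, h4]
        push_cast
        rfl
      have h2 := key r hr.1
      have h3 := key r' hr'.1
      simp only at h
      rw [h, h3] at h2
      exact (mul_right_cancel₀ (by positivity) h2).symm
  · have h1 := (hF r hr).2
    simp only [not_not]
    exact h1

end Pool.Agent.Y951.TR
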