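import Pool.Agent.Y933.KD.Unif
import Mathlib.NumberTheory.Padics.PadicVal.Basic

/-!
# Orbits of `b ^ n / p ^ m` and an inequality of Bessel type (helper951)
-/

set_option autoImplicit false

namespace Pool.Agent.Y951.TR

open Finset Real
open Pool.Agent.Y933.KD

lemma pow_lte {p b : ℕ} (hp : p.Prime) (hp2 : p ≠ 2) (hb : 2 ≤ b) (hpb : ¬ p ∣ b) :
    ∃ a : ℕ, 1 ≤ a ∧ ∀ i : ℕ, ∃ z : ℕ, ¬ p ∣ z ∧ b ^ ((p - 1) * p ^ i) = 1 + p ^ (a + i) * z := by
  haveI : Fact p.Prime := ⟨hp⟩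
  have hodd : Odd p := hp.odd_of_ne_two hp2
  have hp1 : 1 ≤ p - 1 := by have := hp.two_le; omega
  have hx : 1 < b ^ (p - 1) := Nat.one_lt_pow (by omega) (by omega)
  have hcop : Nat.Coprime b p := (Nat.Prime.coprime_iff_not_dvd hp).2 hpb |>.symm
  have hdvd : p ∣ b ^ (p - 1) - 1 := by
    have h1 := Nat.ModEq.pow_totient hcop
    rw [Nat.totient_prime hp] at h1
    exact (Nat.modEq_iff_dvd' hx.le).1 h1.symm
  have hnd : ¬ p ∣ b ^ (p - 1) := fun h => hpb (hp.dvd_of_dvd_pow h)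
  refine ⟨padicValNat p (b ^ (p - 1) - 1), ?_, fun i => ?_⟩
  · exact one_le_padicValNat_of_dvd (by omega) hdvd
  · have h1 := padicValNat.pow_sub_pow (p := p) hodd hx hdvd hnd (n := p ^ i)
      (by have := hp.pos; positivity)
    rw [one_pow, ← pow_mul, padicValNat.prime_pow] at h1
    have hy : 1 < b ^ ((p - 1) * p ^ i) := Nat.one_lt_pow (by
      have := hp.pos
      positivity) (by omega)
    have hne : b ^ ((p - 1) * p ^ i) - 1 ≠ 0 := by omega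
    obtain ⟨z, hz⟩ := (padicValNat_dvd_iff_le hne (p := p)).2 h1.ge
    refine ⟨z, fun hpz => ?_, by omega⟩
    obtain ⟨w, rfl⟩ := hpz
    have h2 : p ^ (padicValNat p (b ^ (p - 1) - 1) + i + 1) ∣ b ^ ((p - 1) * p ^ i) - 1 :=
      ⟨w, by rw [hz, pow_succ]; ring⟩
    have h3 := (padicValNat_dvd_iff_le hne).1 h2
    omega

lemma one_add_pow (q z j : ℕ) : ∃ w : ℕ, (1 + q * z) ^ j = 1 + j * (q * z) + q ^ 2 * w := by
  induction j with
  | zero => exact ⟨0, by simp⟩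
  | succ j ih =>
    obtain ⟨w, hw⟩ := ih
    refine ⟨j * z ^ 2 + w + w * q * z, ?_⟩
    rw [pow_succ, hw]
    push_cast
    ring

lemma sum_range_blocks {E : Type*} [AddCommMonoid E] (f : ℕ → E) (s J : ℕ) :
    ∑ n ∈ range (s * J), f n = ∑ j ∈ range J, ∑ i ∈ range s, f (s * j + i) := by
  induction J with
  | zero => simp
  | succ J ih => rw [Nat.mul_succ, sum_range_add, ih, sum_range_succ]

lemma geom_zero {p : ℕ} (hp : 0 < p) {g : ℤ} (hg : ¬ (p : ℤ) ∣ g) :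
    ∑ j ∈ range p, e (j * ((g : ℝ) / p)) = 0 := by
  have hpR : (p : ℝ) ≠ 0 := by exact_mod_cast hp.ne'
  have h1 : ∀ j ∈ range p, e (j * ((g : ℝ) / p)) = e ((g : ℝ) / p) ^ j := fun j _ => e_nat_mul j _
  rw [sum_congr rfl h1]
  have h2 : e ((g : ℝ) / p) ^ p = 1 := by
    rw [← e_nat_mul, mul_div_cancel₀ _ hpR, e_int]
  have h3 : e ((g : ℝ) / p) ≠ 1 := by
    intro h
    have h4 : ‖e ((g : ℝ) / p) - 1‖ = 0 := by rw [h, sub_self, norm_zero]
    rw [norm_e_sub_one] at h4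
    have h5 : sin (π * ((g : ℝ) / p)) = 0 := by
      rw [← abs_eq_zero]; linarith
    obtain ⟨n, hn⟩ := Real.sin_eq_zero_iff.1 h5
    have h6 : (n : ℝ) = (g : ℝ) / p := by
      have h7 : π * (n : ℝ) = π * ((g : ℝ) / p) := by rw [← hn]; ring
      exact mul_left_cancel₀ pi_ne_zero h7
    rw [eq_div_iff hpR] at h6
    apply hg
    exact ⟨n, by have : n * (p : ℤ) = g := by exact_mod_cast h6
                 rw [← this]; ring⟩
  have h4 := mul_neg_geom_sum (e ((g : ℝ) / p)) p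
  rw [h2, sub_self] at h4
  rcases mul_eq_zero.1 h4 with h5 | h5
  · exact absurd (sub_eq_zero.1 h5).symm h3
  · exact h5

/-- the sum over an orbit vanishes -/
lemma inner_zero {p b m s z : ℕ} (hp : p.Prime) (hpb : ¬ p ∣ b) (hm : 2 ≤ m)
    (hs : b ^ s = 1 + p ^ (m - 1) * z) (hz : ¬ p ∣ z) {g : ℤ} (hg : ¬ (p : ℤ) ∣ g) (n : ℕ) :
    ∑ j ∈ range p, e ((g : ℝ) * (b : ℝ) ^ (n + s * j) / (p : ℝ) ^ m) = 0 := by
  have hpR : (p : ℝ) ≠ 0 := by exact_mod_cast hp.pos.ne'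
  have h1 : ∀ j ∈ range p, e ((g : ℝ) * (b : ℝ) ^ (n + s * j) / (p : ℝ) ^ m) =
      e ((g : ℝ) * (b : ℝ) ^ n / (p : ℝ) ^ m) * e (j * (((g * b ^ n * z : ℤ) : ℝ) / p)) := by
    intro j _
    obtain ⟨w, hw⟩ := one_add_pow (p ^ (m - 1)) z j
    have h2 : (b : ℝ) ^ (n + s * j) =
        (b : ℝ) ^ n * (1 + j * ((p : ℝ) ^ (m - 1) * z) + ((p : ℝ) ^ (m - 1)) ^ 2 * w) := by
      rw [pow_add, pow_mul]
      have h3 : ((b ^ s : ℕ) : ℝ) ^ j = (((1 + p ^ (m - 1) * z) ^ j : ℕ) : ℝ) := by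
        rw [hs]; push_cast; rfl
      rw [hw] at h3
      push_cast at h3
      rw [h3]
    have h4 : (g : ℝ) * (b : ℝ) ^ (n + s * j) / (p : ℝ) ^ m =
        (g : ℝ) * (b : ℝ) ^ n / (p : ℝ) ^ m + j * (((g * b ^ n * z : ℤ) : ℝ) / p) +
          ((g * b ^ n * (p : ℤ) ^ (m - 2) * w : ℤ) : ℝ) := by
      rw [h2]
      obtain ⟨m', rfl⟩ := Nat.exists_eq_add_of_le hm
      have e1 : 2 + m' - 1 = m' + 1 := by omega
      have e2 : 2 + m' - 2 = m' := by omega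
      rw [e1, e2]
      push_cast
      field_simp
      ring
    rw [h4, e_add_int, e_add]
  rw [sum_congr rfl h1, ← mul_sum, geom_zero hp.pos, mul_zero]
  intro h
  have hpp : Prime (p : ℤ) := Nat.prime_iff_prime_int.1 hp
  rcases hpp.dvd_or_dvd h with h2 | h2
  · rcases hpp.dvd_or_dvd h2 with h3 | h3
    · exact hg h3
    · have h4 := hpp.dvd_of_dvd_pow h3
      exact hpb (by exact_mod_cast h4)
  · exact hz (by exact_mod_cast h2)

lemma short_of_blocks {f : ℕ → ℂ} (hf : ∀ n, ‖f n‖ ≤ 1) {T : ℕ} (hT : 0 < T)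
    (h : ∀ n, ∑ i ∈ range T, f (n + i) = 0) (N : ℕ) : ‖∑ n ∈ range N, f n‖ ≤ T := by
  have h1 : N = T * (N / T) + N % T := (Nat.div_add_mod N T).symm
  rw [h1, sum_range_add, sum_range_blocks]
  have h2 : ∑ j ∈ range (N / T), ∑ i ∈ range T, f (T * j + i) = 0 :=
    sum_eq_zero fun j _ => h _
  rw [h2, zero_add]
  refine (norm_sum_le _ _).trans ?_
  calc ∑ x ∈ range (N % T), ‖f (T * (N / T) + x)‖ ≤ ∑ x ∈ range (N % T), (1 : ℝ) :=
        sum_le_sum fun x _ => hf _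
    _ = (N % T : ℕ) := by simp
    _ ≤ T := by exact_mod_cast (Nat.mod_lt N hT).le

/-- **Orbits of `g b ^ n / p ^ m`** -/
theorem orb {p b : ℕ} (hp : p.Prime) (hp2 : p ≠ 2) (hb : 2 ≤ b) (hpb : ¬ p ∣ b) :
    ∃ a : ℕ, ∀ m : ℕ, a < m → ∀ g : ℤ, ¬ (p : ℤ) ∣ g → ∀ N : ℕ,
      ‖∑ n ∈ range N, e ((g : ℝ) * (b : ℝ) ^ n / (p : ℝ) ^ m)‖ ≤ (p : ℝ) ^ m := by
  obtain ⟨a, ha, h⟩ := pow_lte hp hp2 hb hpb
  refine ⟨a, fun m hm g hg N => ?_⟩
  obtain ⟨z, hz, hs⟩ := h (m - 1 - a)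
  have e1 : a + (m - 1 - a) = m - 1 := by omega
  rw [e1] at hs
  set s := (p - 1) * p ^ (m - 1 - a) with hsdef
  have hp1 : 1 ≤ p - 1 := by have := hp.two_le; omega
  have hs0 : 0 < s := by
    have := hp.pos
    rw [hsdef]; positivity
  have h2 : ∀ n, ∑ i ∈ range (s * p), e ((g : ℝ) * (b : ℝ) ^ (n + i) / (p : ℝ) ^ m) = 0 := by
    intro n
    rw [sum_range_blocks (fun i => e ((g : ℝ) * (b : ℝ) ^ (n + i) / (p : ℝ) ^ m)) s p, sum_comm]
    refine sum_eq_zero fun i _ => ?_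
    have h3 := inner_zero hp hpb (by omega) hs hz hg (n + i)
    rw [← h3]
    refine sum_congr rfl fun j _ => ?_
    congr 4
    ring
  refine (short_of_blocks (fun n => (norm_e _).le) (Nat.mul_pos hs0 hp.pos) h2 N).trans ?_
  have h3 : s * p ≤ p ^ m := by
    calc s * p = (p - 1) * p ^ (m - 1 - a + 1) := by rw [hsdef, pow_succ]; ring
      _ ≤ p * p ^ (m - 1 - a + 1) := Nat.mul_le_mul_right _ (Nat.sub_le _ _)
      _ = p ^ (m - 1 - a + 1 + 1) := by rw [pow_succ]; ring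
      _ ≤ p ^ m := Nat.pow_le_pow_right hp.pos (by omega)
  exact_mod_cast h3

/-- **Bessel**: few almost orthogonal unimodular sequences have large sums. -/
theorem bessel {S : Finset ℕ} {N : ℕ} (hN : 0 < N) (θ : ℕ → ℕ → ℝ) {T η : ℝ} (hη : 0 < η)
    (hT : ∀ k ∈ S, ∀ k' ∈ S, k ≠ k' → ‖∑ n ∈ range N, e (θ k n - θ k' n)‖ ≤ T)
    (hbig : ∀ k ∈ S, η * N ≤ ‖∑ n ∈ range N, e (θ k n)‖) (hST : S.card * T ≤ N) (hT0 : 0 ≤ T) :
    (S.card : ℝ) ≤ 2 / η ^ 2 := by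
  classical
  have hNR : (0 : ℝ) < N := by exact_mod_cast hN
  set A : ℕ → ℂ := fun k => ∑ n ∈ range N, e (θ k n) with hA
  set c : ℕ → ℂ := fun k => (starRingEnd ℂ) (A k) / ‖A k‖ with hc
  have hAk : ∀ k ∈ S, 0 < ‖A k‖ := fun k hk => lt_of_lt_of_le (by positivity) (hbig k hk)
  have hcn : ∀ k ∈ S, ‖c k‖ = 1 := by
    intro k hk
    rw [hc]
    simp only [norm_div, RCLike.norm_conj, Complex.norm_real, norm_norm]
    exact div_self (hAk k hk).ne'
  have hcA : ∀ k ∈ S, c k * A k = (‖A k‖ : ℂ) := by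
    intro k hk
    have h1 : ((‖A k‖ : ℝ) : ℂ) ≠ 0 := by exact_mod_cast (hAk k hk).ne'
    rw [hc]
    simp only
    rw [div_mul_eq_mul_div, div_eq_iff h1, mul_comm ((starRingEnd ℂ) (A k)), Complex.mul_conj,
      Complex.normSq_eq_norm_sq]
    push_cast
    ring
  set W : ℕ → ℂ := fun n => ∑ k ∈ S, c k * e (θ k n) with hW
  have h1 : ∑ n ∈ range N, W n = ((∑ k ∈ S, ‖A k‖ : ℝ) : ℂ) := by
    rw [hW]
    simp only
    rw [sum_comm]
    push_cast
    refine sum_congr rfl fun k hk => ?_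
    rw [← mul_sum, ← hcA k hk]
  have h2 : (∑ k ∈ S, ‖A k‖) ^ 2 ≤ N * ∑ n ∈ range N, ‖W n‖ ^ 2 := by
    have h3 : (∑ k ∈ S, ‖A k‖) = ‖∑ n ∈ range N, W n‖ := by
      rw [h1, Complex.norm_real, Real.norm_of_nonneg (sum_nonneg fun k _ => norm_nonneg _)]
    rw [h3]
    have h4 : ‖∑ n ∈ range N, W n‖ ≤ ∑ n ∈ range N, ‖W n‖ := norm_sum_le _ _
    have h5 : (∑ n ∈ range N, ‖W n‖) ^ 2 ≤ (range N).card * ∑ n ∈ range N, ‖W n‖ ^ 2 :=
      sq_sum_le_card_mul_sum_sq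
    rw [card_range] at h5
    exact (pow_le_pow_left₀ (norm_nonneg _) h4 2).trans h5
  have h3 : ((∑ n ∈ range N, ‖W n‖ ^ 2 : ℝ) : ℂ) =
      ∑ k ∈ S, ∑ k' ∈ S, c k * (starRingEnd ℂ) (c k') * ∑ n ∈ range N, e (θ k n - θ k' n) := by
    push_cast
    have h4 : ∀ n ∈ range N, ((‖W n‖ : ℂ)) ^ 2 =
        ∑ k ∈ S, ∑ k' ∈ S, c k * (starRingEnd ℂ) (c k') * e (θ k n - θ k' n) := by
      intro n _
      have h5 : ((‖W n‖ : ℂ)) ^ 2 = W n * (starRingEnd ℂ) (W n) := by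
        rw [Complex.mul_conj, Complex.normSq_eq_norm_sq]; push_cast; rfl
      rw [h5, hW]
      simp only
      rw [map_sum, sum_mul_sum]
      refine sum_congr rfl fun k _ => sum_congr rfl fun k' _ => ?_
      rw [map_mul, ← e_neg, sub_eq_add_neg, e_add]
      ring
    rw [sum_congr rfl h4, sum_comm]
    refine sum_congr rfl fun k _ => ?_
    rw [sum_comm]
    refine sum_congr rfl fun k' _ => ?_
    rw [mul_sum]
  have h4 : ∑ n ∈ range N, ‖W n‖ ^ 2 ≤ S.card * N + S.card * (S.card * T) := by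
    have h5 : ∑ n ∈ range N, ‖W n‖ ^ 2 = ‖((∑ n ∈ range N, ‖W n‖ ^ 2 : ℝ) : ℂ)‖ := by
      rw [Complex.norm_real, Real.norm_of_nonneg (sum_nonneg fun k _ => by positivity)]
    rw [h5, h3]
    refine (norm_sum_le _ _).trans ?_
    have h6 : ∀ k ∈ S, ‖∑ k' ∈ S, c k * (starRingEnd ℂ) (c k') *
        ∑ n ∈ range N, e (θ k n - θ k' n)‖ ≤ N + S.card * T := by
      intro k hk
      refine (norm_sum_le _ _).trans ?_
      have h7 : ∀ k' ∈ S, ‖c k * (starRingEnd ℂ) (c k') * ∑ n ∈ range N, e (θ k n - θ k' n)‖ ≤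
          (if k' = k then (N : ℝ) else 0) + T := by
        intro k' hk'
        rw [norm_mul, norm_mul, RCLike.norm_conj, hcn k hk, hcn k' hk', one_mul, one_mul]
        by_cases h8 : k' = k
        · rw [if_pos h8, h8]
          simp only [sub_self, e_zero, sum_const, card_range, nsmul_eq_mul, mul_one,
            Complex.norm_natCast]
          linarith
        · rw [if_neg h8, zero_add]
          exact hT k hk k' hk' (Ne.symm h8)
      refine (sum_le_sum h7).trans ?_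
      rw [sum_add_distrib, sum_ite_eq' S k, if_pos hk, sum_const, nsmul_eq_mul]
    refine (sum_le_sum h6).trans ?_
    rw [sum_const, nsmul_eq_mul]
    linarith
  have h5 : S.card * (η * N) ≤ ∑ k ∈ S, ‖A k‖ := by
    rw [← nsmul_eq_mul, ← sum_const]
    exact sum_le_sum hbig
  have h6 : (S.card * (η * N)) ^ 2 ≤ N * (S.card * N + S.card * N) := by
    calc (S.card * (η * N)) ^ 2 ≤ (∑ k ∈ S, ‖A k‖) ^ 2 := pow_le_pow_left₀ (by positivity) h5 2
      _ ≤ N * ∑ n ∈ range N, ‖W n‖ ^ 2 := h2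
      _ ≤ N * (S.card * N + S.card * (S.card * T)) := by gcongr
      _ ≤ N * (S.card * N + S.card * N) := by gcongr
  rcases S.eq_empty_or_nonempty with rfl | hne
  · simp only [card_empty, Nat.cast_zero]; positivity
  · have hS : (0 : ℝ) < S.card := by exact_mod_cast hne.card_pos
    rw [le_div_iff₀ (by positivity)]
    have h7 : (S.card : ℝ) * N ^ 2 * (S.card * η ^ 2) ≤ (S.card : ℝ) * N ^ 2 * 2 := by
      nlinarith [h6]
    exact le_of_mul_le_mul_left h7 (by positivity)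

end Pool.Agent.Y951.TR
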