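import Pool.Agent.Y951.TR.Weyl
import Pool.Agent.Y951.TR.Orb

/-!
# Translates of an arbitrary real number by rational numbers (helper951)
-/

set_option autoImplicit false

namespace Pool.Agent.Y951.TR

open Finset Real
open Pool.Agent.Y933.KD

open Classical in
/-- the discrepancy of the points `ξ, b ξ, …, b ^ (N - 1) ξ` modulo one is at most `ε` -/
def Disc (b N : ℕ) (ξ ε : ℝ) : Prop :=
  ∀ u v : ℝ, 0 ≤ u → u ≤ v → v ≤ 1 →
    |(((range N).filter (fun n => Int.fract ((b : ℝ) ^ n * ξ) ∈ Set.Ico u v)).card : ℝ) -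
      (v - u) * N| ≤ ε * N

lemma disc_zero (b : ℕ) (ξ ε : ℝ) : Disc b 0 ξ ε := by
  intro u v _ _ _
  simp

/-- the difference of two translates -/
lemma corr {p b a : ℕ} (hp : p.Prime)
    (ha : ∀ m : ℕ, a < m → ∀ g : ℤ, ¬ (p : ℤ) ∣ g → ∀ N : ℕ,
      ‖∑ n ∈ range N, e ((g : ℝ) * (b : ℝ) ^ n / (p : ℝ) ^ m)‖ ≤ (p : ℝ) ^ m)
    {l : ℕ} (hl : 1 ≤ l) {k k' : ℕ} (hk : l + a < k) (hkk : k' < k) {t t' : ℤ}
    (ht : ¬ (p : ℤ) ∣ t) (x : ℝ) (N : ℕ) :
    ‖∑ n ∈ range N, e (l * ((b : ℝ) ^ n * (x + t / (p : ℝ) ^ k)) -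
      l * ((b : ℝ) ^ n * (x + t' / (p : ℝ) ^ k')))‖ ≤ (p : ℝ) ^ k := by
  have hpR : (p : ℝ) ≠ 0 := by exact_mod_cast hp.pos.ne'
  obtain ⟨v, l', hl', hlv⟩ := Nat.exists_eq_pow_mul_and_not_dvd (by omega : l ≠ 0) p hp.one_lt.ne'
  have hv : v < l := by
    have h1 : l' ≠ 0 := by rintro rfl; omega
    calc v < p ^ v := Nat.lt_pow_self hp.one_lt
      _ ≤ p ^ v * l' := Nat.le_mul_of_pos_right _ (Nat.pos_of_ne_zero h1)
      _ = l := hlv.symm
  obtain ⟨r, rfl⟩ := Nat.exists_eq_add_of_lt hkk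
  have h1 : ∀ n ∈ range N, e (l * ((b : ℝ) ^ n * (x + t / (p : ℝ) ^ (k' + r + 1))) -
      l * ((b : ℝ) ^ n * (x + t' / (p : ℝ) ^ k'))) =
      e ((((l' : ℤ) * (t - t' * (p : ℤ) ^ (r + 1)) : ℤ) : ℝ) * (b : ℝ) ^ n /
        (p : ℝ) ^ (k' + r + 1 - v)) := by
    intro n _
    congr 1
    have h2 : (p : ℝ) ^ (k' + r + 1) = (p : ℝ) ^ (k' + r + 1 - v) * (p : ℝ) ^ v := by
      rw [← pow_add]; congr 1; omega
    have h3 : (t : ℝ) / (p : ℝ) ^ (k' + r + 1) - t' / (p : ℝ) ^ k' =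
        (t - t' * (p : ℝ) ^ (r + 1)) / (p : ℝ) ^ (k' + r + 1) := by
      rw [show k' + r + 1 = k' + (r + 1) from by ring, pow_add]
      field_simp
    have h4 : (l : ℝ) = (p : ℝ) ^ v * l' := by
      have : ((l : ℕ) : ℝ) = ((p ^ v * l' : ℕ) : ℝ) := by rw [← hlv]
      rw [this]; push_cast; ring
    have h5 : (l : ℝ) * ((b : ℝ) ^ n * (x + t / (p : ℝ) ^ (k' + r + 1))) -
        l * ((b : ℝ) ^ n * (x + t' / (p : ℝ) ^ k')) =
        l * (b : ℝ) ^ n * (t / (p : ℝ) ^ (k' + r + 1) - t' / (p : ℝ) ^ k') := by ring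
    rw [h5, h3, h2, h4]
    push_cast
    field_simp
  rw [sum_congr rfl h1]
  refine (ha _ (by omega) _ ?_ N).trans ?_
  · have hpp : Prime (p : ℤ) := Nat.prime_iff_prime_int.1 hp
    intro h
    rcases hpp.dvd_or_dvd h with h2 | h2
    · exact hl' (by exact_mod_cast h2)
    · have h3 : (p : ℤ) ∣ t' * (p : ℤ) ^ (r + 1) :=
        Dvd.dvd.mul_left (dvd_pow_self _ (by omega)) _
      have h5 := dvd_add h2 h3
      rw [sub_add_cancel] at h5
      exact ht h5
  · exact pow_le_pow_right₀ (by exact_mod_cast hp.one_lt.le) (by omega)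

open Classical in
/-- one base -/
theorem few_bad_one {p b : ℕ} (hp : p.Prime) (hp2 : p ≠ 2) (hb : 2 ≤ b) (hpb : ¬ p ∣ b) {ε : ℝ}
    (hε : 0 < ε) : ∃ R : ℕ, ∀ (x : ℝ) (N K : ℕ), K * p ^ K ≤ N →
      ((Icc 1 K).filter (fun k => ¬ ∀ t : ℤ, ¬ (p : ℤ) ∣ t →
        Disc b N (x + t / (p : ℝ) ^ k) ε)).card ≤ R := by
  obtain ⟨H, hH, η, hη, hW⟩ := weyl_disc hε
  obtain ⟨a, ha⟩ := orb hp hp2 hb hpb
  refine ⟨(H + a) + H * ⌊2 / η ^ 2⌋₊, fun x N K hKN => ?_⟩
  rcases Nat.eq_zero_or_pos N with hN | hN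
  · subst hN
    rw [filter_false_of_mem (fun k _ => by
      intro h
      exact h fun t _ => disc_zero b _ _)]
    simp
  set S : ℕ → Finset ℕ := fun l => (Icc (H + a + 1) K).filter
    (fun k => ∃ t : ℤ, ¬ (p : ℤ) ∣ t ∧
      η * N ≤ ‖∑ n ∈ range N, e (l * ((b : ℝ) ^ n * (x + t / (p : ℝ) ^ k)))‖) with hS
  have h1 : (Icc 1 K).filter (fun k => ¬ ∀ t : ℤ, ¬ (p : ℤ) ∣ t →
      Disc b N (x + t / (p : ℝ) ^ k) ε) ⊆ Icc 1 (H + a) ∪ (Icc 1 H).biUnion S := by
    intro k hk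
    rw [mem_filter, mem_Icc] at hk
    rw [mem_union]
    by_cases hka : k ≤ H + a
    · exact Or.inl (mem_Icc.2 ⟨hk.1.1, hka⟩)
    · right
      by_contra hcon
      apply hk.2
      intro t ht
      refine hW N (fun n => (b : ℝ) ^ n * (x + t / (p : ℝ) ^ k)) hN fun l hl1 hlH => ?_
      by_contra hbig
      apply hcon
      rw [mem_biUnion]
      refine ⟨l, mem_Icc.2 ⟨hl1, hlH⟩, ?_⟩
      rw [hS]
      simp only [mem_filter, mem_Icc]
      exact ⟨⟨by omega, hk.1.2⟩, t, ht, (not_le.1 hbig).le⟩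
  have h2 : ∀ l ∈ Icc 1 H, (S l).card ≤ ⌊2 / η ^ 2⌋₊ := by
    intro l hl
    rw [mem_Icc] at hl
    refine Nat.le_floor ?_
    have hch : ∀ k : ℕ, ∃ t : ℤ, k ∈ S l → (¬ (p : ℤ) ∣ t ∧
        η * N ≤ ‖∑ n ∈ range N, e (l * ((b : ℝ) ^ n * (x + t / (p : ℝ) ^ k)))‖) := by
      intro k
      by_cases hk : k ∈ S l
      · have hk' := hk
        rw [hS] at hk'
        simp only [mem_filter] at hk'
        obtain ⟨t, ht⟩ := hk'.2
        exact ⟨t, fun _ => ht⟩
      · exact ⟨0, fun h => absurd h hk⟩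
    choose A hA using hch
    refine bessel hN (fun k n => l * ((b : ℝ) ^ n * (x + A k / (p : ℝ) ^ k))) (T := (p : ℝ) ^ K) hη
      ?_ ?_ ?_ (by positivity)
    · intro k hk k' hk' hne
      have hAk := (hA k hk).1
      have hAk' := (hA k' hk').1
      rw [hS] at hk hk'
      simp only [mem_filter, mem_Icc] at hk hk'
      have hpp : (1 : ℝ) ≤ p := by exact_mod_cast hp.one_lt.le
      rcases lt_or_gt_of_ne hne with h | h
      · have h3 := corr hp ha (l := l) hl.1 (k := k') (k' := k) (by omega) h hAk'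
          (t' := A k) x N
        have h4 := norm_sum_e_neg (range N) (fun n => (l * ((b : ℝ) ^ n *
          (x + A k' / (p : ℝ) ^ k')) - l * ((b : ℝ) ^ n * (x + A k / (p : ℝ) ^ k)) : ℝ))
        simp only [neg_sub] at h4
        rw [h4]
        exact h3.trans (pow_le_pow_right₀ hpp hk'.1.2)
      · have h3 := corr hp ha (l := l) hl.1 (k := k) (k' := k') (by omega) h hAk
          (t' := A k') x N
        exact h3.trans (pow_le_pow_right₀ hpp hk.1.2)
    · intro k hk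
      exact (hA k hk).2
    · have h3 : (S l).card ≤ K := by
        calc (S l).card ≤ (Icc (H + a + 1) K).card := card_filter_le _ _
          _ ≤ K := by rw [Nat.card_Icc]; omega
      have h4 : (S l).card * p ^ K ≤ N := (Nat.mul_le_mul_right _ h3).trans hKN
      exact_mod_cast h4
  calc _ ≤ (Icc 1 (H + a) ∪ (Icc 1 H).biUnion S).card := card_le_card h1
    _ ≤ (Icc 1 (H + a)).card + ((Icc 1 H).biUnion S).card := card_union_le _ _
    _ ≤ (H + a) + ∑ l ∈ Icc 1 H, (S l).card := by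
        rw [Nat.card_Icc]
        exact Nat.add_le_add (by omega) card_biUnion_le
    _ ≤ (H + a) + ∑ l ∈ Icc 1 H, ⌊2 / η ^ 2⌋₊ := Nat.add_le_add_left (sum_le_sum h2) _
    _ = _ := by rw [sum_const, Nat.card_Icc]; simp

open Classical in
/-- several bases -/
theorem few_bad {p : ℕ} (hp : p.Prime) (hp2 : p ≠ 2) (B : Finset ℕ) (hB : ∀ b ∈ B, 2 ≤ b ∧ ¬ p ∣ b)
    {ε : ℝ} (hε : 0 < ε) : ∃ R : ℕ, ∀ (x : ℝ) (N K : ℕ), K * p ^ K ≤ N →
      ((Icc 1 K).filter (fun k => ¬ ∀ b ∈ B, ∀ t : ℤ, ¬ (p : ℤ) ∣ t →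
        Disc b N (x + t / (p : ℝ) ^ k) ε)).card ≤ R := by
  choose! R hR using fun (b : ℕ) (hb : b ∈ B) => few_bad_one hp hp2 (hB b hb).1 (hB b hb).2 hε
  refine ⟨∑ b ∈ B, R b, fun x N K hKN => ?_⟩
  calc _ ≤ (B.biUnion fun b => (Icc 1 K).filter
        (fun k => ¬ ∀ t : ℤ, ¬ (p : ℤ) ∣ t → Disc b N (x + t / (p : ℝ) ^ k) ε)).card := by
        refine card_le_card fun k hk => ?_
        rw [mem_filter] at hk
        obtain ⟨hk1, hk2⟩ := hk
        by_contra hcon
        apply hk2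
        intro b hb
        by_contra hb2
        exact hcon (mem_biUnion.2 ⟨b, hb, mem_filter.2 ⟨hk1, hb2⟩⟩)
    _ ≤ ∑ b ∈ B, ((Icc 1 K).filter (fun k => ¬ ∀ t : ℤ, ¬ (p : ℤ) ∣ t →
          Disc b N (x + t / (p : ℝ) ^ k) ε)).card := card_biUnion_le
    _ ≤ ∑ b ∈ B, R b := sum_le_sum fun b hb => hR b hb x N K hKN

open Classical in
/-- a finite family with few bad members at every stage: most members are good at most stages of
infinitely many initial segments -/
theorem often {F : Finset ℕ} {bad : ℕ → ℕ → Prop} {R : ℝ} {δ : ℝ} (hδ : 0 < δ) {j₀ : ℕ}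
    (hbad : ∀ j, j₀ ≤ j → ((F.filter (fun k => bad k j)).card : ℝ) ≤ R)
    (hF : ∀ k ∈ F, ¬ ∃ᶠ J : ℕ in Filter.atTop,
      (1 - δ) * J ≤ (((range J).filter (fun j => ¬ bad k j)).card : ℝ)) :
    (F.card : ℝ) ≤ R / δ := by
  have h1 : ∀ᶠ J : ℕ in Filter.atTop, ∀ k ∈ F,
      (((range J).filter (fun j => ¬ bad k j)).card : ℝ) < (1 - δ) * J := by
    rw [Filter.eventually_all_finset]
    intro k hk
    have h2 := Filter.not_frequently.1 (hF k hk)
    filter_upwards [h2] with J hJ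
    exact not_le.1 hJ
  obtain ⟨J₁, hJ₁⟩ := Filter.eventually_atTop.1 h1
  have h2 : ∀ J : ℕ, J₁ ≤ J → F.card * (δ * J) ≤ R * J + F.card * j₀ := by
    intro J hJ
    have hR0 : 0 ≤ R := (Nat.cast_nonneg _).trans (hbad j₀ le_rfl)
    have h3 : ∀ k ∈ F, δ * J ≤ (((range J).filter (fun j => bad k j)).card : ℝ) := by
      intro k hk
      have h4 := hJ₁ J hJ k hk
      have h5 : ((range J).filter (fun j => bad k j)).card +
          ((range J).filter (fun j => ¬ bad k j)).card = J := by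
        rw [card_filter_add_card_filter_not, card_range]
      have h6 : (((range J).filter (fun j => bad k j)).card : ℝ) +
          (((range J).filter (fun j => ¬ bad k j)).card : ℝ) = J := by exact_mod_cast h5
      linarith
    have h4 : ∑ k ∈ F, (((range J).filter (fun j => bad k j)).card : ℝ) =
        ∑ j ∈ range J, ((F.filter (fun k => bad k j)).card : ℝ) := by
      simp only [card_filter]
      push_cast
      exact sum_comm
    have h5 : ∑ j ∈ range J, ((F.filter (fun k => bad k j)).card : ℝ) ≤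
        ∑ j ∈ range J, (R + if j < j₀ then (F.card : ℝ) else 0) := by
      refine sum_le_sum fun j _ => ?_
      by_cases hj : j < j₀
      · rw [if_pos hj]
        have : ((F.filter (fun k => bad k j)).card : ℝ) ≤ F.card := by
          exact_mod_cast card_filter_le _ _
        linarith
      · rw [if_neg hj, add_zero]
        exact hbad j (not_lt.1 hj)
    have h6 : ∑ j ∈ range J, (if j < j₀ then (F.card : ℝ) else 0) ≤ F.card * j₀ := by
      rw [← sum_filter, sum_const, nsmul_eq_mul, mul_comm]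
      refine mul_le_mul_of_nonneg_left ?_ (Nat.cast_nonneg _)
      have : ((range J).filter (fun j => j < j₀)).card ≤ (range j₀).card :=
        card_le_card fun j hj => by
          rw [mem_filter] at hj
          exact mem_range.2 hj.2
      rw [card_range] at this
      exact_mod_cast this
    calc F.card * (δ * J) = ∑ k ∈ F, δ * J := by rw [sum_const, nsmul_eq_mul]
      _ ≤ ∑ k ∈ F, (((range J).filter (fun j => bad k j)).card : ℝ) := sum_le_sum h3
      _ = _ := h4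
      _ ≤ _ := h5
      _ = R * J + ∑ j ∈ range J, (if j < j₀ then (F.card : ℝ) else 0) := by
          rw [sum_add_distrib, sum_const, card_range, nsmul_eq_mul]; ring
      _ ≤ _ := by linarith
  rw [le_div_iff₀ hδ]
  by_contra hcon
  push Not at hcon
  obtain ⟨J, hJ⟩ := exists_nat_gt (F.card * j₀ / (F.card * δ - R))
  have h3 : 0 < F.card * δ - R := by linarith
  rw [div_lt_iff₀ h3] at hJ
  have h4 := h2 (max J J₁) (le_max_right _ _)
  have h5 : (J : ℝ) ≤ (max J J₁ : ℕ) := by exact_mod_cast le_max_left _ _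
  nlinarith

end Pool.Agent.Y951.TR
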