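import Pool.Agent.Y951.TR.Main

/-!
# All translates by fractions with a given denominator (helper951)
-/

set_option autoImplicit false

namespace Pool.Agent.Y951.TR

open Finset Real
open Pool.Agent.Y933.KD

lemma separated {S : Finset ℕ} {N : ℕ} (hS : S ⊆ range N) {ρ : ℝ} (hρ : 0 < ρ)
    (h : ∀ s ∈ S, ∀ t ∈ S, s < t → ρ ≤ (t : ℝ) - s) : (S.card : ℝ) ≤ N / ρ + 1 := by
  have h1 : S.card ≤ (range (⌊(N : ℝ) / ρ⌋₊ + 1)).card := by
    refine card_le_card_of_injOn (fun s => ⌊(s : ℝ) / ρ⌋₊) ?_ ?_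
    · intro s hs
      rw [Finset.mem_coe, mem_range, Nat.lt_succ_iff]
      refine Nat.floor_le_floor ?_
      have := mem_range.1 (hS hs)
      have h2 : (s : ℝ) ≤ N := by exact_mod_cast this.le
      gcongr
    · have key : ∀ s ∈ S, ∀ t ∈ S, s < t → ⌊(s : ℝ) / ρ⌋₊ < ⌊(t : ℝ) / ρ⌋₊ := by
        intro s hs t ht hst
        have h2 := h s hs t ht hst
        have h3 : (s : ℝ) / ρ + 1 ≤ (t : ℝ) / ρ := by
          rw [le_div_iff₀ hρ, add_mul, div_mul_cancel₀ _ hρ.ne']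
          linarith
        have h4 : ⌊(s : ℝ) / ρ⌋₊ + 1 = ⌊(s : ℝ) / ρ + 1⌋₊ := by
          rw [Nat.floor_add_one (by positivity)]
        have h5 : ⌊(s : ℝ) / ρ + 1⌋₊ ≤ ⌊(t : ℝ) / ρ⌋₊ := Nat.floor_le_floor h3
        omega
      intro s hs t ht hst
      by_contra hne
      rcases lt_or_gt_of_ne hne with h2 | h2
      · exact absurd hst (key s hs t ht h2).ne
      · exact absurd hst (key t ht s hs h2).ne'
  rw [card_range] at h1
  have h2 : (S.card : ℝ) ≤ ⌊(N : ℝ) / ρ⌋₊ + 1 := by exact_mod_cast h1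
  have h3 : ((⌊(N : ℝ) / ρ⌋₊ : ℕ) : ℝ) ≤ N / ρ := Nat.floor_le (by positivity)
  linarith

lemma sum_res {c : ℕ} (hc : 0 < c) (z : ℤ) :
    ‖∑ a ∈ range c, e (a * ((z : ℝ) / c))‖ ≤ if (c : ℤ) ∣ z then (c : ℝ) else 0 := by
  by_cases h : (c : ℤ) ∣ z
  · rw [if_pos h]
    refine (norm_sum_le _ _).trans ?_
    simp [norm_e]
  · rw [if_neg h, geom_zero hc h, norm_zero]

lemma dvd_sep {b c l n1 n2 n' : ℕ} (hb : 2 ≤ b) (hcb : c.Coprime b) (hl : 1 ≤ l)
    (h1 : (c : ℤ) ∣ l * ((b : ℤ) ^ n1 - (b : ℤ) ^ n')) (h2 : (c : ℤ) ∣ l * ((b : ℤ) ^ n2 - (b : ℤ) ^ n'))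
    (h : n1 < n2) : c < l * b ^ (n2 - n1) := by
  have h3 : (c : ℤ) ∣ (b : ℤ) ^ n1 * (l * ((b : ℤ) ^ (n2 - n1) - 1)) := by
    have h4 := dvd_sub h2 h1
    have h5 : (l : ℤ) * ((b : ℤ) ^ n2 - (b : ℤ) ^ n') - l * ((b : ℤ) ^ n1 - (b : ℤ) ^ n') =
        (b : ℤ) ^ n1 * (l * ((b : ℤ) ^ (n2 - n1) - 1)) := by
      have h6 : (b : ℤ) ^ n2 = (b : ℤ) ^ n1 * (b : ℤ) ^ (n2 - n1) := by
        rw [← pow_add]; congr 1; omega
      rw [h6]; ring
    rwa [h5] at h4
  have h4 : IsCoprime (c : ℤ) ((b : ℤ) ^ n1) := (Nat.isCoprime_iff_coprime.2 hcb).pow_right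
  have h5 := h4.dvd_of_dvd_mul_left h3
  have h6 : 2 ≤ b ^ (n2 - n1) := by
    calc 2 ≤ b := hb
      _ = b ^ 1 := (pow_one b).symm
      _ ≤ b ^ (n2 - n1) := Nat.pow_le_pow_right (by omega) (by omega)
  have h7 : (0 : ℤ) < l * ((b : ℤ) ^ (n2 - n1) - 1) := by
    have h8 : (2 : ℤ) ≤ (b : ℤ) ^ (n2 - n1) := by exact_mod_cast h6
    have h9 : (1 : ℤ) ≤ l := by exact_mod_cast hl
    nlinarith
  have h8 := Int.le_of_dvd h7 h5
  have h9 : (c : ℤ) < l * (b : ℤ) ^ (n2 - n1) := by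
    have : (1 : ℤ) ≤ l := by exact_mod_cast hl
    nlinarith
  exact_mod_cast h9

/-- the second moment over the translates -/
lemma moment {b c l : ℕ} (hb : 2 ≤ b) (hc : 2 ≤ c) (hcb : c.Coprime b) (hl : 1 ≤ l) (x : ℝ)
    (N : ℕ) : ∑ a ∈ range c, ‖∑ n ∈ range N, e (l * ((b : ℝ) ^ n * (x + a / c)))‖ ^ 2 ≤
      c * (N * (N * ((Real.log l + Real.log b) / Real.log c) + 1)) := by
  classical
  have hcR : (0 : ℝ) < c := by exact_mod_cast (by omega : 0 < c)
  have hlc : 0 < Real.log c := Real.log_pos (by exact_mod_cast (by omega : 1 < c))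
  have hlb : 0 < Real.log b := Real.log_pos (by exact_mod_cast (by omega : 1 < b))
  have hll : 0 ≤ Real.log l := Real.log_nonneg (by exact_mod_cast hl)
  set Λ := Real.log l + Real.log b with hΛ
  have hΛ0 : 0 < Λ := by rw [hΛ]; linarith
  have h1 : ((∑ a ∈ range c, ‖∑ n ∈ range N, e (l * ((b : ℝ) ^ n * (x + a / c)))‖ ^ 2 : ℝ) : ℂ) =
      ∑ n' ∈ range N, ∑ n ∈ range N, e (l * ((b : ℝ) ^ n - (b : ℝ) ^ n') * x) *
        ∑ a ∈ range c, e (a * (((l * ((b : ℤ) ^ n - (b : ℤ) ^ n') : ℤ) : ℝ) / c)) := by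
    push_cast
    have h2 : ∀ a ∈ range c, ((‖∑ n ∈ range N, e (l * ((b : ℝ) ^ n * (x + a / c)))‖ : ℂ)) ^ 2 =
        ∑ n' ∈ range N, ∑ n ∈ range N, e (l * ((b : ℝ) ^ n - (b : ℝ) ^ n') * x) *
          e (a * (l * ((b : ℝ) ^ n - (b : ℝ) ^ n') / c)) := by
      intro a _
      set W := ∑ n ∈ range N, e (l * ((b : ℝ) ^ n * (x + a / c))) with hW
      have h3 : ((‖W‖ : ℂ)) ^ 2 = (starRingEnd ℂ) W * W := by
        rw [mul_comm, Complex.mul_conj, Complex.normSq_eq_norm_sq]; push_cast; rfl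
      rw [h3, hW, map_sum, sum_mul_sum]
      refine sum_congr rfl fun n' _ => sum_congr rfl fun n _ => ?_
      rw [← e_neg, ← e_add, ← e_add]
      congr 1
      ring
    rw [sum_congr rfl h2, sum_comm]
    refine sum_congr rfl fun n' _ => ?_
    rw [sum_comm]
    refine sum_congr rfl fun n _ => ?_
    rw [mul_sum]
  have h2 : ∑ a ∈ range c, ‖∑ n ∈ range N, e (l * ((b : ℝ) ^ n * (x + a / c)))‖ ^ 2 ≤
      ∑ n' ∈ range N, ∑ n ∈ range N,
        (if (c : ℤ) ∣ l * ((b : ℤ) ^ n - (b : ℤ) ^ n') then (c : ℝ) else 0) := by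
    have h3 : ∑ a ∈ range c, ‖∑ n ∈ range N, e (l * ((b : ℝ) ^ n * (x + a / c)))‖ ^ 2 =
        ‖((∑ a ∈ range c, ‖∑ n ∈ range N, e (l * ((b : ℝ) ^ n * (x + a / c)))‖ ^ 2 : ℝ) : ℂ)‖ := by
      rw [Complex.norm_real, Real.norm_of_nonneg (sum_nonneg fun a _ => by positivity)]
    rw [h3, h1]
    refine (norm_sum_le _ _).trans (sum_le_sum fun n' _ => ?_)
    refine (norm_sum_le _ _).trans (sum_le_sum fun n _ => ?_)
    rw [norm_mul, norm_e, one_mul]
    exact sum_res (by omega) _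
  refine h2.trans ?_
  have h3 : ∀ n' ∈ range N, ∑ n ∈ range N,
      (if (c : ℤ) ∣ l * ((b : ℤ) ^ n - (b : ℤ) ^ n') then (c : ℝ) else 0) ≤
      c * (N * (Λ / Real.log c) + 1) := by
    intro n' _
    rw [← sum_filter, sum_const, nsmul_eq_mul, mul_comm]
    refine mul_le_mul_of_nonneg_left ?_ hcR.le
    have h4 := separated (S := (range N).filter
      (fun n => (c : ℤ) ∣ l * ((b : ℤ) ^ n - (b : ℤ) ^ n'))) (N := N) (filter_subset _ _)
      (ρ := Real.log c / Λ) (by positivity) (by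
        intro s hs t ht hst
        rw [mem_filter] at hs ht
        have h5 := dvd_sep hb hcb hl hs.2 ht.2 hst
        have h6 : Real.log c ≤ ((t : ℝ) - s) * Λ := by
          have h7 : (1 : ℝ) ≤ (t : ℝ) - s := by
            have : (s : ℝ) + 1 ≤ t := by exact_mod_cast hst
            linarith
          have h8 : Real.log c ≤ Real.log l + ((t : ℝ) - s) * Real.log b := by
            have h9 : (c : ℝ) ≤ l * (b : ℝ) ^ (t - s) := by exact_mod_cast h5.le
            calc Real.log c ≤ Real.log (l * (b : ℝ) ^ (t - s)) := Real.log_le_log hcR h9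
              _ = Real.log l + ((t - s : ℕ) : ℝ) * Real.log b := by
                  have h10 : (0 : ℝ) < l := by exact_mod_cast hl
                  have h11 : (0 : ℝ) < b := by exact_mod_cast (by omega : 0 < b)
                  rw [Real.log_mul h10.ne' (pow_pos h11 _).ne', Real.log_pow]
              _ = _ := by rw [Nat.cast_sub hst.le]
          have h9 : Real.log l ≤ ((t : ℝ) - s) * Real.log l := le_mul_of_one_le_left hll h7
          rw [hΛ]
          linarith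
        rwa [div_le_iff₀ hΛ0])
    refine h4.trans (le_of_eq ?_)
    rw [div_div_eq_mul_div, mul_div_assoc]
  refine (sum_le_sum h3).trans (le_of_eq ?_)
  rw [sum_const, card_range, nsmul_eq_mul]
  ring

open Classical in
/-- one base -/
theorem few_trans_one {b : ℕ} (hb : 2 ≤ b) {ε : ℝ} (hε : 0 < ε) : ∃ C : ℝ, 0 < C ∧
    ∀ c : ℕ, 2 ≤ c → c.Coprime b → ∀ (x : ℝ) (N : ℕ), 1 ≤ N →
      (((range c).filter (fun a : ℕ => ¬ Disc b N (x + (a : ℝ) / c) ε)).card : ℝ) ≤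
        C * c * (1 / N + 1 / Real.log c) := by
  obtain ⟨H, hH, η, hη, hW⟩ := weyl_disc hε
  set Λ := Real.log H + Real.log b + 1 with hΛ
  have hlb : 0 < Real.log b := Real.log_pos (by exact_mod_cast (by omega : 1 < b))
  have hlH : 0 ≤ Real.log H := Real.log_nonneg (by exact_mod_cast hH)
  have hΛ1 : 1 ≤ Λ := by rw [hΛ]; linarith
  have hHR : (0 : ℝ) < H := by exact_mod_cast hH
  refine ⟨H * (Λ / η ^ 2), by positivity, fun c hc hcb x N hN => ?_⟩
  have hNR : (0 : ℝ) < N := by exact_mod_cast hN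
  have hcR : (0 : ℝ) < c := by exact_mod_cast (by omega : 0 < c)
  have hlc : 0 < Real.log c := Real.log_pos (by exact_mod_cast (by omega : 1 < c))
  set S : ℕ → Finset ℕ := fun l => (range c).filter
    (fun a => η * N ≤ ‖∑ n ∈ range N, e (l * ((b : ℝ) ^ n * (x + (a : ℝ) / c)))‖) with hS
  have h1 : (range c).filter (fun a : ℕ => ¬ Disc b N (x + (a : ℝ) / c) ε) ⊆
      (Icc 1 H).biUnion S := by
    intro a hk
    rw [mem_filter] at hk
    by_contra hcon
    apply hk.2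
    refine hW N (fun n => (b : ℝ) ^ n * (x + (a : ℝ) / c)) hN fun l hl1 hlH => ?_
    by_contra hbig
    apply hcon
    rw [mem_biUnion]
    refine ⟨l, mem_Icc.2 ⟨hl1, hlH⟩, ?_⟩
    rw [hS]
    simp only [mem_filter]
    exact ⟨hk.1, (not_le.1 hbig).le⟩
  have h2 : ∀ l ∈ Icc 1 H, ((S l).card : ℝ) ≤ (Λ / η ^ 2) * c * (1 / N + 1 / Real.log c) := by
    intro l hl
    rw [mem_Icc] at hl
    have hm := moment hb hc hcb hl.1 x N
    have h3 : ((S l).card : ℝ) * (η * N) ^ 2 ≤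
        ∑ a ∈ range c, ‖∑ n ∈ range N, e (l * ((b : ℝ) ^ n * (x + (a : ℝ) / c)))‖ ^ 2 := by
      calc ((S l).card : ℝ) * (η * N) ^ 2 = ∑ a ∈ S l, (η * N) ^ 2 := by
            rw [sum_const, nsmul_eq_mul]
        _ ≤ ∑ a ∈ S l, ‖∑ n ∈ range N, e (l * ((b : ℝ) ^ n * (x + (a : ℝ) / c)))‖ ^ 2 := by
            refine sum_le_sum fun a ha => ?_
            rw [hS] at ha
            simp only [mem_filter] at ha
            exact pow_le_pow_left₀ (by positivity) ha.2 2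
        _ ≤ _ := sum_le_sum_of_subset_of_nonneg (filter_subset _ _) fun _ _ _ => by positivity
    have h4 : Real.log l + Real.log b ≤ Λ := by
      have : Real.log l ≤ Real.log H :=
        Real.log_le_log (by exact_mod_cast hl.1) (by exact_mod_cast hl.2)
      rw [hΛ]; linarith
    have h5 : ((S l).card : ℝ) * (η * N) ^ 2 ≤ c * (N * (N * (Λ / Real.log c) + Λ)) := by
      refine (h3.trans hm).trans ?_
      gcongr
    rw [← mul_le_mul_iff_left₀ (show (0 : ℝ) < (η * N) ^ 2 by positivity)]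
    refine h5.trans (le_of_eq ?_)
    field_simp
    ring
  have h3 : ((((range c).filter (fun a : ℕ => ¬ Disc b N (x + (a : ℝ) / c) ε)).card : ℕ) : ℝ) ≤
      ∑ l ∈ Icc 1 H, ((S l).card : ℝ) := by
    exact_mod_cast (card_le_card h1).trans card_biUnion_le
  refine h3.trans ((sum_le_sum h2).trans (le_of_eq ?_))
  rw [sum_const, Nat.card_Icc, nsmul_eq_mul]
  simp
  ring

open Classical in
/-- several bases -/
theorem few_trans (B : Finset ℕ) (hB : ∀ b ∈ B, 2 ≤ b) {ε : ℝ} (hε : 0 < ε) : ∃ C : ℝ, 0 < C ∧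
    ∀ c : ℕ, 2 ≤ c → (∀ b ∈ B, c.Coprime b) → ∀ (x : ℝ) (N : ℕ), 1 ≤ N →
      (((range c).filter (fun a : ℕ => ¬ ∀ b ∈ B, Disc b N (x + (a : ℝ) / c) ε)).card : ℝ) ≤
        C * c * (1 / N + 1 / Real.log c) := by
  choose! C hC0 hC using fun (b : ℕ) (hb : b ∈ B) => few_trans_one (hB b hb) hε
  refine ⟨∑ b ∈ B, C b + 1, ?_, fun c hc hcb x N hN => ?_⟩
  · have : 0 ≤ ∑ b ∈ B, C b := sum_nonneg fun b hb => (hC0 b hb).le
    linarith
  have hlc : 0 < Real.log c := Real.log_pos (by exact_mod_cast (by omega : 1 < c))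
  have h1 : (((range c).filter (fun a : ℕ => ¬ ∀ b ∈ B, Disc b N (x + (a : ℝ) / c) ε)).card : ℝ) ≤
      ∑ b ∈ B, (((range c).filter (fun a : ℕ => ¬ Disc b N (x + (a : ℝ) / c) ε)).card : ℝ) := by
    have h2 : (range c).filter (fun a : ℕ => ¬ ∀ b ∈ B, Disc b N (x + (a : ℝ) / c) ε) ⊆
        B.biUnion fun b => (range c).filter (fun a : ℕ => ¬ Disc b N (x + (a : ℝ) / c) ε) := by
      intro a ha
      rw [mem_filter] at ha
      obtain ⟨ha1, ha2⟩ := ha
      push Not at ha2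
      obtain ⟨b, hb, hb2⟩ := ha2
      exact mem_biUnion.2 ⟨b, hb, mem_filter.2 ⟨ha1, hb2⟩⟩
    exact_mod_cast (card_le_card h2).trans card_biUnion_le
  refine h1.trans ?_
  calc _ ≤ ∑ b ∈ B, C b * c * (1 / N + 1 / Real.log c) :=
        sum_le_sum fun b hb => hC b hb c hc (hcb b hb) x N hN
    _ = (∑ b ∈ B, C b) * c * (1 / N + 1 / Real.log c) := by rw [sum_mul, sum_mul]
    _ ≤ _ := by
        have : (0 : ℝ) ≤ c * (1 / N + 1 / Real.log c) := by positivity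
        nlinarith

end Pool.Agent.Y951.TR
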