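import Pool.Agent.Y933.KD.Unif

/-!
# Weyl's criterion with constants (helper951)

Small exponential sums imply that a finite sequence of reals is well distributed modulo one.
-/

set_option autoImplicit false

namespace Pool.Agent.Y951.TR

open Finset Real MeasureTheory
open Pool.Agent.Y933.KD

lemma norm_sum_e_neg {ι : Type*} (s : Finset ι) (y : ι → ℝ) :
    ‖∑ n ∈ s, e (-(y n))‖ = ‖∑ n ∈ s, e (y n)‖ := by
  have h : ∑ n ∈ s, e (-(y n)) = (starRingEnd ℂ) (∑ n ∈ s, e (y n)) := by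
    rw [map_sum]
    exact sum_congr rfl fun n _ => e_neg _
  rw [h, RCLike.norm_conj]

lemma leb_Ev {u v : ℝ} (hu : 0 ≤ u) (hv : v ≤ 1) (huv : u ≤ v) :
    Leb.real (Ev (k := 1) (fun _ => 1) (fun _ => 0) (fun _ => u) (fun _ => v)) = v - u := by
  unfold Measure.real Leb
  rw [Measure.restrict_apply (measurableSet_Ev _ _ _ _)]
  have h1 : Ev (k := 1) (fun _ => 1) (fun _ => 0) (fun _ => u) (fun _ => v) ∩ Set.Ico (0 : ℝ) 1 =
      Set.Ico u v := by
    ext t
    unfold Ev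
    simp only [pow_zero, one_mul, Set.mem_inter_iff, Set.mem_ofPred_eq, Set.mem_Ico]
    constructor
    · rintro ⟨h2, h3, h4⟩
      rw [Int.fract_eq_self.2 ⟨h3, h4⟩] at h2
      exact h2 0
    · rintro ⟨h2, h3⟩
      have h4 : 0 ≤ t := hu.trans h2
      have h5 : t < 1 := h3.trans_le hv
      rw [Int.fract_eq_self.2 ⟨h4, h5⟩]
      exact ⟨fun _ => ⟨h2, h3⟩, h4, h5⟩
  rw [h1, Real.volume_Ico, ENNReal.toReal_ofReal (by linarith)]

open Classical in
/-- **Weyl's criterion with constants** -/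
theorem weyl_disc {ε : ℝ} (hε : 0 < ε) : ∃ H : ℕ, 1 ≤ H ∧ ∃ η : ℝ, 0 < η ∧ ∀ (N : ℕ) (y : ℕ → ℝ),
    1 ≤ N → (∀ l : ℕ, 1 ≤ l → l ≤ H → ‖∑ n ∈ range N, e (l * y n)‖ ≤ η * N) →
    ∀ u v : ℝ, 0 ≤ u → u ≤ v → v ≤ 1 →
      |(((range N).filter (fun n => Int.fract (y n) ∈ Set.Ico u v)).card : ℝ) - (v - u) * N| ≤
        ε * N := by
  obtain ⟨K, hK⟩ := exists_nat_gt (24 / ε)
  have hK0 : 0 < K := by
    have : (0 : ℝ) < K := lt_trans (by positivity) hK
    exact_mod_cast this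
  have hKR : (0 : ℝ) < K := by exact_mod_cast hK0
  set Δ : ℝ := ε / (2 * ((2 * (K : ℝ) ^ 3 + 1) + 5)) with hΔ
  have hΔ0 : 0 < Δ := by rw [hΔ]; positivity
  refine ⟨K ^ 3, Nat.one_le_pow _ _ hK0, Δ, hΔ0, fun N y hN hy u v hu huv hv => ?_⟩
  have hNR : (0 : ℝ) < N := by exact_mod_cast hN
  haveI : IsProbabilityMeasure (unif (range N) y) :=
    unif_prob (by rw [nonempty_range_iff]; omega) y
  have hhat : ∀ l : ℤ, l ≠ 0 → |l| ≤ (K : ℤ) ^ 3 → ‖hat (unif (range N) y) l‖ ≤ Δ := by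
    intro l hl0 hl
    unfold hat
    rw [integral_unif, card_range, norm_mul, norm_div, norm_one, Complex.norm_natCast]
    have h1 : ‖∑ m ∈ range N, e (l * y m)‖ ≤ Δ * N := by
      have h2 : 1 ≤ l.natAbs := by omega
      have h3 : l.natAbs ≤ K ^ 3 := by
        have : ((l.natAbs : ℕ) : ℤ) ≤ ((K ^ 3 : ℕ) : ℤ) := by
          rw [Int.natCast_natAbs]; push_cast; exact hl
        exact_mod_cast this
      have h4 := hy _ h2 h3
      rcases le_total 0 l with h5 | h5
      · have h6 : ((l.natAbs : ℕ) : ℝ) = (l : ℝ) := by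
          have h : ((((l.natAbs : ℕ) : ℤ)) : ℝ) = (l : ℝ) := by rw [Int.natAbs_of_nonneg h5]
          rwa [Int.cast_natCast] at h
        rw [h6] at h4
        exact h4
      · have h6 : ((l.natAbs : ℕ) : ℝ) = -(l : ℝ) := by
          have h : ((((l.natAbs : ℕ) : ℤ)) : ℝ) = -(l : ℝ) := by
            rw [Int.ofNat_natAbs_of_nonpos h5, Int.cast_neg]
          rwa [Int.cast_natCast] at h
        rw [h6] at h4
        have h7 : ∑ m ∈ range N, e (l * y m) = ∑ m ∈ range N, e (-(-(l : ℝ) * y m)) := by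
          refine sum_congr rfl fun m _ => ?_
          congr 1
          ring
        rw [h7, norm_sum_e_neg]
        exact h4
    rw [one_div, inv_mul_le_iff₀ hNR]
    linarith
  have key := test (k := 1) hK0 (unif (range N) y) Leb hat_Leb
    (fun i => ((((fun _ => 1 : Fin 1 → ℕ) i : ℕ) : ℤ) ^ ((fun _ => 0 : Fin 1 → ℕ) i)))
    (by intro i; simp) Δ
    (by
      intro h hh h0
      rw [Fin.sum_univ_one] at h0 ⊢
      have e1 : h 0 * (((1 : ℕ) : ℤ) ^ 0) = h 0 := by simp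
      simp only [e1] at h0 ⊢
      exact hhat _ h0 (hh 0)) hΔ0.le (fun _ => u) (fun _ => v) (fun _ => hu) (fun _ => hv)
  rw [integral_ind, integral_ind, leb_Ev hu hv huv, real_unif _ _ (measurableSet_Ev _ _ _ _)] at key
  have h1 : ((range N).filter (fun m => y m ∈ Ev (k := 1) (fun _ => 1) (fun _ => 0)
      (fun _ => u) (fun _ => v))) =
      (range N).filter (fun n => Int.fract (y n) ∈ Set.Ico u v) := by
    ext m
    simp only [mem_filter, Ev, Set.mem_ofPred_eq, pow_zero, one_mul, Set.mem_Ico, forall_const]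
  rw [h1, card_range] at key
  have h2 : (2 * (K : ℝ) ^ 3 + 1) ^ 1 * Δ + ((1 : ℕ) : ℝ) * (12 / K + 5 * Δ) ≤ ε := by
    have h3 : (12 : ℝ) / K ≤ ε / 2 := by
      rw [div_le_iff₀ hKR]
      rw [div_lt_iff₀ hε] at hK
      linarith
    have h4 : ((2 * (K : ℝ) ^ 3 + 1) + 5) * Δ = ε / 2 := by
      rw [hΔ]; field_simp
    rw [pow_one, Nat.cast_one, one_mul]
    linarith
  have h5 := key.trans h2
  have h6 : (((range N).filter (fun n => Int.fract (y n) ∈ Set.Ico u v)).card : ℝ) - (v - u) * N =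
      ((((range N).filter (fun n => Int.fract (y n) ∈ Set.Ico u v)).card : ℝ) / N - (v - u)) * N := by
    field_simp
  rw [h6, abs_mul, abs_of_pos hNR]
  exact mul_le_mul_of_nonneg_right h5 hNR.le

end Pool.Agent.Y951.TR
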